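import Pool.Agent.T6.H18.NK.Defs

/-!
# Minkowski sums of regular polygons (helper71 for helper18)
-/

set_option autoImplicit false

namespace Pool.Agent.T6.H18.NK

open Classical

namespace ModBASE

variable {h r : ℕ}

/-- the point with the number `a` -/
noncomputable def phi (lam : Fin r → ℝ) (a : Fin r → Fin (2 * h)) : ℝ × ℝ :=
  (∑ i, lam i * Real.cos (Real.pi * (2 * ((a i).val : ℝ)) / (2 * (h : ℝ))),
   ∑ i, lam i * Real.sin (Real.pi * (2 * ((a i).val : ℝ)) / (2 * (h : ℝ))))

/-- the height of a point -/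
noncomputable def Ht (lam : Fin r → ℝ) (s : ℕ) (a : Fin r → Fin (2 * h)) : ℝ :=
  ∑ i, lam i * ht h s (a i)

/-- the line through a point in the direction with the number `s` -/
noncomputable def lin (lam : Fin r → ℝ) (s : ℕ) (a : Fin r → Fin (2 * h)) : Set (ℝ × ℝ) :=
  {p | Real.cos (Real.pi * (s : ℝ) / (2 * (h : ℝ))) * p.1 +
    Real.sin (Real.pi * (s : ℝ) / (2 * (h : ℝ))) * p.2 = Ht lam s a}

theorem key (lam : Fin r → ℝ) (s : ℕ) (b : Fin r → Fin (2 * h)) :
    Real.cos (Real.pi * (s : ℝ) / (2 * (h : ℝ))) * (phi lam b).1 +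
    Real.sin (Real.pi * (s : ℝ) / (2 * (h : ℝ))) * (phi lam b).2 = Ht lam s b := by
  unfold phi Ht ht
  simp only [Finset.mul_sum, ← Finset.sum_add_distrib]
  refine Finset.sum_congr rfl fun i _ => ?_
  have : Real.pi * (2 * ((b i).val : ℝ) - s) / (2 * (h : ℝ)) =
      Real.pi * (2 * ((b i).val : ℝ)) / (2 * (h : ℝ)) - Real.pi * (s : ℝ) / (2 * (h : ℝ)) := by
    ring
  rw [this, Real.cos_sub]
  ring

theorem mem_lin (lam : Fin r → ℝ) (s : ℕ) (a b : Fin r → Fin (2 * h)) :
    phi lam b ∈ lin lam s a ↔ Ht lam s b = Ht lam s a := by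
  unfold lin
  rw [Set.mem_ofPred_eq, key]

theorem isLine (lam : Fin r → ℝ) (s : ℕ) (a : Fin r → Fin (2 * h)) : IsLine (lin lam s a) := by
  refine ⟨_, _, _, ?_, rfl⟩
  by_contra hcon
  push Not at hcon
  have := Real.sin_sq_add_cos_sq (Real.pi * (s : ℝ) / (2 * (h : ℝ)))
  rw [hcon.1, hcon.2] at this
  norm_num at this

/-- generic coefficients -/
theorem exists_lam (hG : StmGEN) (h r k : ℕ) : ∃ lam : Fin r → ℝ, ∀ j < k,
    ∀ a b : Fin r → Fin (2 * h), Ht lam (2 * j + 1) a = Ht lam (2 * j + 1) b →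
      ∀ i, ht h (2 * j + 1) (a i) = ht h (2 * j + 1) (b i) := by
  obtain ⟨lam, hl⟩ := hG r (((Finset.range k ×ˢ
    ((Finset.univ : Finset (Fin r → Fin (2 * h))) ×ˢ
      (Finset.univ : Finset (Fin r → Fin (2 * h))))).image
    fun q => fun i => ht h (2 * q.1 + 1) (q.2.1 i) - ht h (2 * q.1 + 1) (q.2.2 i)).filter
      fun c => c ≠ 0) (fun c hc => (Finset.mem_filter.1 hc).2)
  refine ⟨lam, fun j hj a b hab => ?_⟩
  by_contra hcon
  push Not at hcon
  obtain ⟨i, hi⟩ := hcon
  have h1 := hl (fun i => ht h (2 * j + 1) (a i) - ht h (2 * j + 1) (b i))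
    (Finset.mem_filter.2 ⟨Finset.mem_image.2 ⟨(j, a, b), by simp [hj], rfl⟩, fun h0 =>
      hi (sub_eq_zero.1 (congrFun h0 i))⟩)
  apply h1
  simp only [mul_sub, Finset.sum_sub_distrib]
  exact sub_eq_zero.2 hab

theorem rel_two (j j' : ℕ) (hj : j < h) (hj' : j' < h) (hne : j ≠ j') (x y : Fin (2 * h))
    (h1 : Rel h (2 * j + 1) x y) (h2 : Rel h (2 * j' + 1) x y) : x = y := by
  rcases h1 with h1 | h1
  · exact h1
  rcases h2 with h2 | h2
  · exact h2
  rw [h1] at h2
  rw [Nat.mod_eq_of_lt (by omega), Nat.mod_eq_of_lt (by omega)] at h2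
  omega

end ModBASE

open ModBASE in
theorem base (hC : StmCNT) (hF : StmFLIP) (hT : StmTRIG) (hG : StmGEN) : StmBASE := by
  intro k h hk hkh
  set r := Nat.clog 2 k with hr
  have hk2 : k ≤ 2 ^ r := Nat.le_pow_clog one_lt_two k
  obtain ⟨T, -, hTc⟩ := Finset.exists_subset_card_eq
    (s := (Finset.univ : Finset (Fin r → Bool))) (n := k) (by simpa using hk2)
  obtain ⟨lam, hlam⟩ := exists_lam hG h r k
  have hh : 0 < h := by omega
  -- incidences
  have hmem : ∀ j < k, ∀ a b : Fin r → Fin (2 * h),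
      phi lam b ∈ lin lam (2 * j + 1) a ↔ ∀ i, Rel h (2 * j + 1) (a i) (b i) := by
    intro j hj a b
    rw [mem_lin]
    constructor
    · intro h1 i
      exact (hT h (2 * j + 1) (a i) (b i) hh (by omega)).1 (hlam j hj b a h1 i).symm
    · intro h1
      unfold Ht
      refine Finset.sum_congr rfl fun i _ => ?_
      rw [(hT h (2 * j + 1) (a i) (b i) hh (by omega)).2 (h1 i)]
  have hinj : Function.Injective (phi (h := h) lam) := by
    intro a b hab
    funext i
    have h0 : phi lam b ∈ lin lam (2 * 0 + 1) a := by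
      rw [← hab, mem_lin]
    have h1 : phi lam b ∈ lin lam (2 * 1 + 1) a := by
      rw [← hab, mem_lin]
    exact rel_two 0 1 (by omega) (by omega) (by omega) _ _
      ((hmem 0 (by omega) a b).1 h0 i) ((hmem 1 (by omega) a b).1 h1 i)
  set I : Finset (Fin r → Fin (2 * h)) := Finset.univ.filter fun a : Fin r → Fin (2 * h) =>
    (fun i => par (a i)) ∈ T with hI
  have hFcard : ∀ j < k, ∀ a : Fin r → Fin (2 * h),
      (I.filter fun b => phi lam b ∈ lin lam (2 * j + 1) a).card = k := by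
    intro j hj a
    have h1 := (hF h r (2 * j + 1) T hh (by omega)).2 a
    rw [hTc] at h1
    rw [← h1, hI, Finset.filter_filter]
    congr 1
    ext b
    simp only [Finset.mem_filter, Finset.mem_univ, true_and]
    rw [hmem j hj a b]
  have hdist : ∀ j < k, ∀ j' < k, ∀ a : Fin r → Fin (2 * h),
      lin lam (2 * j + 1) a = lin lam (2 * j' + 1) a → j = j' := by
    intro j hj j' hj' a hl
    by_contra hne
    have h1 := hFcard j hj a
    have h2 : 1 < (I.filter fun b => phi lam b ∈ lin lam (2 * j + 1) a).card := by omega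
    obtain ⟨b, hb, hba⟩ := Finset.exists_mem_ne h2 a
    have hb1 := (Finset.mem_filter.1 hb).2
    have hb2 := hb1
    rw [hl] at hb2
    apply hba
    funext i
    exact (rel_two j j' (by omega) (by omega) hne _ _ ((hmem j hj a b).1 hb1 i)
      ((hmem j' hj' a b).1 hb2 i)).symm
  set P : Finset (ℝ × ℝ) := I.image (phi lam) with hP
  set L : Finset (Set (ℝ × ℝ)) := (Finset.range k ×ˢ I).image
    fun q => lin lam (2 * q.1 + 1) q.2 with hL
  have hcfg : Cfg k P L := by
    refine ⟨?_, ?_, ?_⟩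
    · intro l hl
      obtain ⟨q, -, rfl⟩ := Finset.mem_image.1 hl
      exact isLine _ _ _
    · intro p hp
      obtain ⟨a, ha, rfl⟩ := Finset.mem_image.1 hp
      have h1 : (L.filter fun l => phi lam a ∈ l) =
          (Finset.range k).image fun j => lin lam (2 * j + 1) a := by
        ext l
        simp only [Finset.mem_filter, Finset.mem_image, hL, Finset.mem_product, Finset.mem_range,
          Prod.exists]
        constructor
        · rintro ⟨⟨j, b, ⟨hj, hb⟩, rfl⟩, h2⟩
          refine ⟨j, hj, ?_⟩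
          rw [mem_lin] at h2
          unfold lin
          rw [h2]
        · rintro ⟨j, hj, rfl⟩
          exact ⟨⟨j, a, ⟨hj, ha⟩, rfl⟩, by rw [mem_lin]⟩
      rw [h1, Finset.card_image_of_injOn, Finset.card_range]
      intro j hj j' hj' hjj
      exact hdist j (Finset.mem_range.1 (Finset.mem_coe.1 hj)) j'
        (Finset.mem_range.1 (Finset.mem_coe.1 hj')) a hjj
    · intro l hl
      obtain ⟨⟨j, a⟩, hq, rfl⟩ := Finset.mem_image.1 hl
      have hj : j < k := Finset.mem_range.1 (Finset.mem_product.1 hq).1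
      have h1 : (P.filter fun p => p ∈ lin lam (2 * j + 1) a) =
          (I.filter fun b => phi lam b ∈ lin lam (2 * j + 1) a).image (phi lam) := by
        ext p
        simp only [Finset.mem_filter, Finset.mem_image, hP]
        constructor
        · rintro ⟨⟨b, hb, rfl⟩, h2⟩
          exact ⟨b, ⟨hb, h2⟩, rfl⟩
        · rintro ⟨b, ⟨hb, h2⟩, rfl⟩
          exact ⟨⟨b, hb, rfl⟩, h2⟩
      rw [h1, Finset.card_image_of_injective _ hinj]
      exact hFcard j hj a
  refine ⟨P, L, hcfg, ?_, ?_⟩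
  · rw [hP, Finset.card_image_of_injective _ hinj, hI, (hF h r 1 T hh (by norm_num)).1, hTc]
  · rw [hC k P L (by omega) hcfg, hP, Finset.card_image_of_injective _ hinj, hI,
      (hF h r 1 T hh (by norm_num)).1, hTc]

end Pool.Agent.T6.H18.NK
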