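import Pool.Agent.T6.H18.NK.Defs2
import Pool.Agent.T6.H18.NK.BASE

/-!
# BASP: Minkowski sums of regular polygons, with a parallel class of lines (MP_377d0a_co)
-/

set_option autoImplicit false

namespace Pool.Agent.T6.H18.NK

open Classical

namespace ModBASP

open ModBASE

/-- rotation -/
def ro (c s : ℝ) (x : ℝ × ℝ) : ℝ × ℝ := (s * x.1 - c * x.2, c * x.1 + s * x.2)

/-- the inverse rotation -/
def ri (c s : ℝ) (x : ℝ × ℝ) : ℝ × ℝ := (s * x.1 + c * x.2, -c * x.1 + s * x.2)

theorem ri_ro {c s : ℝ} (h : c ^ 2 + s ^ 2 = 1) (x : ℝ × ℝ) : ri c s (ro c s x) = x := by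
  apply Prod.ext
  · show s * (s * x.1 - c * x.2) + c * (c * x.1 + s * x.2) = x.1
    linear_combination x.1 * h
  · show -c * (s * x.1 - c * x.2) + s * (c * x.1 + s * x.2) = x.2
    linear_combination x.2 * h

theorem ro_ri {c s : ℝ} (h : c ^ 2 + s ^ 2 = 1) (x : ℝ × ℝ) : ro c s (ri c s x) = x := by
  apply Prod.ext
  · show s * (s * x.1 + c * x.2) - c * (-c * x.1 + s * x.2) = x.1
    linear_combination x.1 * h
  · show c * (s * x.1 + c * x.2) + s * (-c * x.1 + s * x.2) = x.2
    linear_combination x.2 * h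

theorem ro_inj {c s : ℝ} (h : c ^ 2 + s ^ 2 = 1) : Function.Injective (ro c s) :=
  Function.LeftInverse.injective (ri_ro h)

theorem pre_inj {c s : ℝ} (h : c ^ 2 + s ^ 2 = 1) :
    Function.Injective (fun l : Set (ℝ × ℝ) => ri c s ⁻¹' l) := by
  intro l l' hll
  ext x
  have h1 := congrArg (fun S => ro c s x ∈ S) hll
  simp only [Set.mem_preimage, ri_ro h] at h1
  exact h1.to_iff

theorem cfg_ro {c s : ℝ} (hcs : c ^ 2 + s ^ 2 = 1) (k : ℕ) (P : Finset (ℝ × ℝ))
    (L : Finset (Set (ℝ × ℝ))) (h : Cfg k P L) :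
    Cfg k (P.image (ro c s)) (L.image fun l => ri c s ⁻¹' l) := by
  refine ⟨?_, ?_, ?_⟩
  · intro l hl
    obtain ⟨m, hm, rfl⟩ := Finset.mem_image.mp hl
    obtain ⟨a, b, d, hab, rfl⟩ := h.line m hm
    refine ⟨a * s - b * c, a * c + b * s, d, ?_, ?_⟩
    · by_contra hcon
      push Not at hcon
      obtain ⟨h1, h2⟩ := hcon
      have e1 : a = 0 := by linear_combination s * h1 + c * h2 - a * hcs
      have e2 : b = 0 := by linear_combination s * h2 - c * h1 - b * hcs
      rcases hab with h3 | h3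
      · exact h3 e1
      · exact h3 e2
    · ext x
      simp only [Set.mem_preimage, Set.mem_ofPred_eq, ri]
      constructor <;> intro h1 <;> linarith
  · intro p hp
    obtain ⟨q, hq, rfl⟩ := Finset.mem_image.mp hp
    rw [Finset.filter_image, Finset.card_image_of_injective _ (pre_inj hcs), ← h.pt q hq]
    congr 1
    ext l
    simp [ri_ro hcs]
  · intro l hl
    obtain ⟨m, hm, rfl⟩ := Finset.mem_image.mp hl
    rw [Finset.filter_image, Finset.card_image_of_injective _ (ro_inj hcs), ← h.ln m hm]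
    congr 1
    ext l
    simp [ri_ro hcs]

/-- `base` with a parallel class of lines -/
theorem base0 (hF : StmFLIP) (hT : StmTRIG) (hG : StmGEN) (k h : ℕ) (hk : 2 ≤ k) (hkh : k ≤ h) :
    ∃ (c s : ℝ) (P : Finset (ℝ × ℝ)) (L T : Finset (Set (ℝ × ℝ))), c ^ 2 + s ^ 2 = 1 ∧
      Cfg k P L ∧ P.card = k * h ^ Nat.clog 2 k ∧ T ⊆ L ∧ T.card = h ^ Nat.clog 2 k ∧
      ∀ l ∈ T, ∃ d : ℝ, l = {p | c * p.1 + s * p.2 = d} := by
  set r := Nat.clog 2 k with hr
  have hk2 : k ≤ 2 ^ r := Nat.le_pow_clog one_lt_two k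
  obtain ⟨T, -, hTc⟩ := Finset.exists_subset_card_eq
    (s := (Finset.univ : Finset (Fin r → Bool))) (n := k) (by simpa using hk2)
  obtain ⟨lam, hlam⟩ := exists_lam hG h r k
  have hh : 0 < h := by omega
  -- incidences
  have hmem : ∀ j < k, ∀ a b : Fin r → Fin (2 * h),
      phi lam b ∈ lin lam (2 * j + 1) a ↔ ∀ i, Rel h (2 * j + 1) (a i) (b i) := by
    intro j hj a b
    rw [mem_lin]
    constructor
    · intro h1 i
      exact (hT h (2 * j + 1) (a i) (b i) hh (by omega)).1 (hlam j hj b a h1 i).symm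
    · intro h1
      unfold Ht
      refine Finset.sum_congr rfl fun i _ => ?_
      rw [(hT h (2 * j + 1) (a i) (b i) hh (by omega)).2 (h1 i)]
  have hinj : Function.Injective (phi (h := h) lam) := by
    intro a b hab
    funext i
    have h0 : phi lam b ∈ lin lam (2 * 0 + 1) a := by
      rw [← hab, mem_lin]
    have h1 : phi lam b ∈ lin lam (2 * 1 + 1) a := by
      rw [← hab, mem_lin]
    exact rel_two 0 1 (by omega) (by omega) (by omega) _ _
      ((hmem 0 (by omega) a b).1 h0 i) ((hmem 1 (by omega) a b).1 h1 i)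
  set I : Finset (Fin r → Fin (2 * h)) := Finset.univ.filter fun a : Fin r → Fin (2 * h) =>
    (fun i => par (a i)) ∈ T with hI
  have hFcard : ∀ j < k, ∀ a : Fin r → Fin (2 * h),
      (I.filter fun b => phi lam b ∈ lin lam (2 * j + 1) a).card = k := by
    intro j hj a
    have h1 := (hF h r (2 * j + 1) T hh (by omega)).2 a
    rw [hTc] at h1
    rw [← h1, hI, Finset.filter_filter]
    congr 1
    ext b
    simp only [Finset.mem_filter, Finset.mem_univ, true_and]
    rw [hmem j hj a b]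
  have hdist : ∀ j < k, ∀ j' < k, ∀ a : Fin r → Fin (2 * h),
      lin lam (2 * j + 1) a = lin lam (2 * j' + 1) a → j = j' := by
    intro j hj j' hj' a hl
    by_contra hne
    have h1 := hFcard j hj a
    have h2 : 1 < (I.filter fun b => phi lam b ∈ lin lam (2 * j + 1) a).card := by omega
    obtain ⟨b, hb, hba⟩ := Finset.exists_mem_ne h2 a
    have hb1 := (Finset.mem_filter.1 hb).2
    have hb2 := hb1
    rw [hl] at hb2
    apply hba
    funext i
    exact (rel_two j j' (by omega) (by omega) hne _ _ ((hmem j hj a b).1 hb1 i)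
      ((hmem j' hj' a b).1 hb2 i)).symm
  set P : Finset (ℝ × ℝ) := I.image (phi lam) with hP
  set L : Finset (Set (ℝ × ℝ)) := (Finset.range k ×ˢ I).image
    fun q => lin lam (2 * q.1 + 1) q.2 with hL
  have hcfg : Cfg k P L := by
    refine ⟨?_, ?_, ?_⟩
    · intro l hl
      obtain ⟨q, -, rfl⟩ := Finset.mem_image.1 hl
      exact isLine _ _ _
    · intro p hp
      obtain ⟨a, ha, rfl⟩ := Finset.mem_image.1 hp
      have h1 : (L.filter fun l => phi lam a ∈ l) =
          (Finset.range k).image fun j => lin lam (2 * j + 1) a := by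
        ext l
        simp only [Finset.mem_filter, Finset.mem_image, hL, Finset.mem_product, Finset.mem_range,
          Prod.exists]
        constructor
        · rintro ⟨⟨j, b, ⟨hj, hb⟩, rfl⟩, h2⟩
          refine ⟨j, hj, ?_⟩
          rw [mem_lin] at h2
          unfold lin
          rw [h2]
        · rintro ⟨j, hj, rfl⟩
          exact ⟨⟨j, a, ⟨hj, ha⟩, rfl⟩, by rw [mem_lin]⟩
      rw [h1, Finset.card_image_of_injOn, Finset.card_range]
      intro j hj j' hj' hjj
      exact hdist j (Finset.mem_range.1 (Finset.mem_coe.1 hj)) j'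
        (Finset.mem_range.1 (Finset.mem_coe.1 hj')) a hjj
    · intro l hl
      obtain ⟨⟨j, a⟩, hq, rfl⟩ := Finset.mem_image.1 hl
      have hj : j < k := Finset.mem_range.1 (Finset.mem_product.1 hq).1
      have h1 : (P.filter fun p => p ∈ lin lam (2 * j + 1) a) =
          (I.filter fun b => phi lam b ∈ lin lam (2 * j + 1) a).image (phi lam) := by
        ext p
        simp only [Finset.mem_filter, Finset.mem_image, hP]
        constructor
        · rintro ⟨⟨b, hb, rfl⟩, h2⟩
          exact ⟨b, ⟨hb, h2⟩, rfl⟩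
        · rintro ⟨b, ⟨hb, h2⟩, rfl⟩
          exact ⟨⟨b, hb, rfl⟩, h2⟩
      rw [h1, Finset.card_image_of_injective _ hinj]
      exact hFcard j hj a
  have hIc : I.card = k * h ^ r := by rw [hI, (hF h r 1 T hh (by norm_num)).1, hTc]
  refine ⟨Real.cos (Real.pi * ((2 * 0 + 1 : ℕ) : ℝ) / (2 * (h : ℝ))),
    Real.sin (Real.pi * ((2 * 0 + 1 : ℕ) : ℝ) / (2 * (h : ℝ))), P, L,
    I.image fun a => lin lam (2 * 0 + 1) a, Real.cos_sq_add_sin_sq _, hcfg, ?_, ?_, ?_, ?_⟩
  · rw [hP, Finset.card_image_of_injective _ hinj, hIc]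
  · intro l hl
    obtain ⟨a, ha, rfl⟩ := Finset.mem_image.1 hl
    exact Finset.mem_image.2 ⟨(0, a), Finset.mem_product.2
      ⟨Finset.mem_range.2 (by omega), ha⟩, rfl⟩
  · have h1 := Finset.card_eq_sum_card_fiberwise (s := I)
      (t := I.image fun a => lin lam (2 * 0 + 1) a) (f := fun a => lin lam (2 * 0 + 1) a)
      (fun a ha => Finset.mem_coe.2 (Finset.mem_image.2 ⟨a, ha, rfl⟩))
    have h2 : ∀ l ∈ I.image fun a => lin lam (2 * 0 + 1) a,
        (I.filter fun a => lin lam (2 * 0 + 1) a = l).card = k := by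
      intro l hl
      obtain ⟨a, ha, rfl⟩ := Finset.mem_image.1 hl
      rw [← hFcard 0 (by omega) a]
      congr 1
      ext b
      simp only [Finset.mem_filter]
      refine and_congr_right fun _ => ?_
      constructor
      · intro h3
        rw [← h3, mem_lin]
      · intro h3
        rw [mem_lin] at h3
        unfold lin
        rw [h3]
    rw [Finset.sum_congr rfl h2, Finset.sum_const, smul_eq_mul, hIc] at h1
    have h3 : k * h ^ r = k * (I.image fun a => lin lam (2 * 0 + 1) a).card := by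
      rw [h1, mul_comm]
    exact (Nat.eq_of_mul_eq_mul_left (by omega) h3).symm
  · intro l hl
    obtain ⟨a, -, rfl⟩ := Finset.mem_image.1 hl
    exact ⟨_, rfl⟩

end ModBASP

open ModBASP in
theorem basp (_ : StmCNT) (hF : StmFLIP) (hT : StmTRIG) (hG : StmGEN) : StmBASP := by
  intro k h hk hkh
  obtain ⟨c, s, P, L, T, hcs, hcfg, hP, hTL, hTc, hTh⟩ := base0 hF hT hG k h hk hkh
  refine ⟨P.image (ro c s), L.image fun l => ri c s ⁻¹' l, T.image fun l => ri c s ⁻¹' l,
    cfg_ro hcs k P L hcfg, ?_, Finset.image_subset_image hTL, ?_, ?_⟩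
  · rw [Finset.card_image_of_injective _ (ro_inj hcs), hP]
  · rw [Finset.card_image_of_injective _ (pre_inj hcs), hTc]
  · intro l hl
    obtain ⟨m, hm, rfl⟩ := Finset.mem_image.1 hl
    obtain ⟨d, rfl⟩ := hTh m hm
    refine ⟨d, ?_⟩
    ext x
    have e : c * (s * x.1 + c * x.2) + s * (-c * x.1 + s * x.2) = x.2 := by
      linear_combination x.2 * hcs
    simp only [Set.mem_preimage, Set.mem_ofPred_eq, ri, e]

end Pool.Agent.T6.H18.NK
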