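import Pool.Agent.T6.H18.NK.Defs

/-!
# Geometric `(n_k)` configurations: module CNT, as many lines as points
-/

set_option autoImplicit false

namespace Pool.Agent.T6.H18.NK

open Classical

theorem cnt : StmCNT := by
  intro k P L hk h
  have h1 : ∑ p ∈ P, (L.filter fun l => p ∈ l).card = ∑ l ∈ L, (P.filter fun p => p ∈ l).card :=
    Finset.sum_card_bipartiteAbove_eq_sum_card_bipartiteBelow (fun (p : ℝ × ℝ) (l : Set (ℝ × ℝ)) => p ∈ l)
  rw [Finset.sum_congr rfl h.pt, Finset.sum_congr rfl h.ln] at h1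
  simp only [Finset.sum_const, smul_eq_mul] at h1
  exact (Nat.eq_of_mul_eq_mul_right hk h1).symm

end Pool.Agent.T6.H18.NK
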