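import Pool.Agent.T6.H18.NK.Defs2

/-!
# Project NK, module COR: the affine switch
-/

set_option autoImplicit false

namespace Pool.Agent.T6.H18.NK

open Classical

namespace ModCOR

/-- the linear maps -/
def al (s : ℝ) (p : ℝ × ℝ) : ℝ × ℝ := (s * p.1, (2 - s) * p.2)

/-- the images of the lines -/
def cp (s : ℝ) (l : Set (ℝ × ℝ)) : Set (ℝ × ℝ) := {x | ((x.1 / s, x.2 / (2 - s)) : ℝ × ℝ) ∈ l}

/-- the line through `q` and the centre of its horizontal line -/
def R (q : ℝ × ℝ) : Set (ℝ × ℝ) := {x | q.2 * x.1 + q.1 * x.2 = 2 * q.1 * q.2}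

theorem al_cp {s : ℝ} (h0 : 0 < s) (h2 : s < 2) (x : ℝ × ℝ) (l : Set (ℝ × ℝ)) :
    al s x ∈ cp s l ↔ x ∈ l := by
  have h3 : (2 - s) ≠ 0 := by linarith
  show ((s * x.1 / s, (2 - s) * x.2 / (2 - s)) : ℝ × ℝ) ∈ l ↔ _
  rw [mul_div_cancel_left₀ _ h0.ne', mul_div_cancel_left₀ _ h3]

theorem cp_inj {s : ℝ} (h0 : 0 < s) (h2 : s < 2) {l l' : Set (ℝ × ℝ)} (h : cp s l = cp s l') :
    l = l' := by
  ext x
  rw [← al_cp h0 h2 x l, h, al_cp h0 h2]

theorem al_inj {s : ℝ} (h0 : 0 < s) (h2 : s < 2) {p q : ℝ × ℝ} (h : al s p = al s q) :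
    p = q := by
  have h3 : (2 - s) ≠ 0 := by linarith
  have e1 : s * p.1 = s * q.1 := congrArg Prod.fst h
  have e2 : (2 - s) * p.2 = (2 - s) * q.2 := congrArg Prod.snd h
  exact Prod.ext (mul_left_cancel₀ h0.ne' e1) (mul_left_cancel₀ h3 e2)

theorem isLine_cp {s : ℝ} (h0 : 0 < s) (h2 : s < 2) {l : Set (ℝ × ℝ)} (hl : IsLine l) :
    IsLine (cp s l) := by
  have h3 : (2 - s) ≠ 0 := by linarith
  obtain ⟨a, b, c, hab, rfl⟩ := hl
  refine ⟨a / s, b / (2 - s), c, ?_, ?_⟩
  · rcases hab with h | h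
    · exact Or.inl (div_ne_zero h h0.ne')
    · exact Or.inr (div_ne_zero h h3)
  · ext x
    show a * (x.1 / s) + b * (x.2 / (2 - s)) = c ↔ a / s * x.1 + b / (2 - s) * x.2 = c
    have e : a * (x.1 / s) + b * (x.2 / (2 - s)) = a / s * x.1 + b / (2 - s) * x.2 := by ring
    rw [e]

end ModCOR

open ModCOR in
theorem cor (hC : StmCNT) : StmCOR := by
  intro k P L T S hk hc hTL hH hSc hS hG
  choose! ht hht using hH
  have hmemT : ∀ t ∈ T, ∀ p : ℝ × ℝ, p ∈ t ↔ p.2 = ht t := by
    intro t htt p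
    have h1 := hht t htt
    constructor
    · intro h
      rw [h1] at h
      exact h
    · intro h
      rw [h1]
      exact h
  let O : Set (ℝ × ℝ) → ℝ × ℝ := fun t => (0, 2 * ht t)
  have hSne : S.Nonempty := by
    rw [← Finset.card_pos]
    omega
  have hon : ∀ p ∈ P, ∃ l ∈ L, p ∈ l := by
    intro p hp
    have h1 := hc.pt p hp
    have h2 : (L.filter fun l => p ∈ l).Nonempty := by
      rw [← Finset.card_pos]
      omega
    obtain ⟨l, hl⟩ := h2
    exact ⟨l, (Finset.mem_filter.mp hl).1, (Finset.mem_filter.mp hl).2⟩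
  have lon : ∀ l ∈ L, ∃ p ∈ P, p ∈ l := by
    intro l hl
    have h1 := hc.ln l hl
    have h2 : (P.filter fun p => p ∈ l).Nonempty := by
      rw [← Finset.card_pos]
      omega
    obtain ⟨p, hp⟩ := h2
    exact ⟨p, (Finset.mem_filter.mp hp).1, (Finset.mem_filter.mp hp).2⟩
  have tinj : ∀ t ∈ T, ∀ t' ∈ T, ht t = ht t' → t = t' := by
    intro t h1 t' h2 h
    ext p
    rw [hmemT t h1, hmemT t' h2, h]
  -- incidences
  have inc1 : ∀ p ∈ P, ∀ l ∈ L, ∀ s ∈ S, ∀ s' ∈ S, (al s p ∈ cp s' l ↔ s = s' ∧ p ∈ l) := by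
    intro p hp l hl s hs s' hs'
    by_cases h : s = s'
    · subst h
      rw [al_cp (hS s hs).1 (hS s hs).2]
      simp
    · have h1 := hG.g1 p hp l hl s hs s' hs' h
      have e : (al s p ∈ cp s' l) = (((s / s' * p.1, (2 - s) / (2 - s') * p.2) : ℝ × ℝ) ∈ l) := by
        show (((s * p.1 / s', (2 - s) * p.2 / (2 - s')) : ℝ × ℝ) ∈ l) = _
        have e1 : s * p.1 / s' = s / s' * p.1 := by ring
        have e2 : (2 - s) * p.2 / (2 - s') = (2 - s) / (2 - s') * p.2 := by ring
        rw [e1, e2]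
      rw [e]
      constructor
      · intro h2
        exact absurd h2 h1
      · intro h2
        exact absurd h2.1 h
  have inc2 : ∀ t ∈ T, ∀ l ∈ L, ∀ s ∈ S, O t ∉ cp s l := by
    intro t htt l hl s hs h
    have h1 : {p : ℝ × ℝ | p.2 = ht t} ∈ T := by
      have h2 := hht t htt
      rw [← h2]
      exact htt
    refine hG.g2 (ht t) h1 l hl s hs ?_
    have h3 : (((0 : ℝ) / s, 2 * ht t / (2 - s)) : ℝ × ℝ) ∈ l := h
    rwa [zero_div] at h3
  have inc3 : ∀ t ∈ T, ∀ q ∈ P, (O t ∈ R q ↔ q ∈ t) := by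
    intro t htt q hq
    have h1 := hG.g3 q hq
    rw [hmemT t htt]
    show q.2 * 0 + q.1 * (2 * ht t) = 2 * q.1 * q.2 ↔ _
    constructor
    · intro h
      have h2 : q.1 * (q.2 - ht t) = 0 := by linarith
      rcases mul_eq_zero.1 h2 with h3 | h3
      · exact absurd h3 h1
      · linarith
    · intro h
      rw [h]
      ring
  have inc4 : ∀ p ∈ P, ∀ q ∈ P, ∀ s ∈ S, (al s p ∈ R q ↔ p = q) := by
    intro p hp q hq s hs
    show q.2 * (s * p.1) + q.1 * ((2 - s) * p.2) = 2 * q.1 * q.2 ↔ _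
    constructor
    · intro h
      by_contra hne
      apply hG.g4 p hp q hq hne s hs
      linear_combination h
    · rintro rfl
      ring
  set P0 : Finset (ℝ × ℝ) := P.filter fun p => ∃ t ∈ T, p ∈ t with hP0
  have P0P : ∀ q ∈ P0, q ∈ P := fun q hq => (Finset.mem_filter.1 hq).1
  have tcard : ∀ p ∈ P, (T.filter fun t => p ∈ t).card = if p ∈ P0 then 1 else 0 := by
    intro p hp
    by_cases h : p ∈ P0
    · rw [if_pos h]
      obtain ⟨-, t, h1, h2⟩ := Finset.mem_filter.1 h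
      rw [Finset.card_eq_one]
      refine ⟨t, ?_⟩
      ext t'
      rw [Finset.mem_filter, Finset.mem_singleton]
      constructor
      · rintro ⟨h3, h4⟩
        rw [hmemT t' h3] at h4
        rw [hmemT t h1] at h2
        exact tinj t' h3 t h1 (h4.symm.trans h2)
      · rintro rfl
        exact ⟨h1, h2⟩
    · rw [if_neg h, Finset.card_eq_zero, Finset.filter_eq_empty_iff]
      intro t h1 h2
      exact h (Finset.mem_filter.2 ⟨hp, t, h1, h2⟩)
  -- injectivity
  have ainj : ∀ s ∈ S, ∀ p ∈ P, ∀ s' ∈ S, ∀ p' ∈ P, al s p = al s' p' → s = s' ∧ p = p' := by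
    intro s hs p hp s' hs' p' hp' h
    obtain ⟨l, hl, hpl⟩ := hon p' hp'
    have h1 : al s' p' ∈ cp s' l := (inc1 p' hp' l hl s' hs' s' hs').2 ⟨rfl, hpl⟩
    rw [← h] at h1
    have h2 := ((inc1 p hp l hl s hs s' hs').1 h1).1
    subst h2
    exact ⟨rfl, al_inj (hS s hs).1 (hS s hs).2 h⟩
  have cinj : ∀ s ∈ S, ∀ l ∈ L, ∀ s' ∈ S, ∀ l' ∈ L, cp s l = cp s' l' → s = s' ∧ l = l' := by
    intro s hs l hl s' hs' l' hl' h
    obtain ⟨p, hp, hpl⟩ := lon l hl
    have h1 : al s p ∈ cp s l := (inc1 p hp l hl s hs s hs).2 ⟨rfl, hpl⟩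
    rw [h] at h1
    have h2 := ((inc1 p hp l' hl' s hs s' hs').1 h1).1
    subst h2
    exact ⟨rfl, cp_inj (hS s hs).1 (hS s hs).2 h⟩
  have rinj : ∀ p ∈ P, ∀ q ∈ P, R p = R q → p = q := by
    intro p hp q hq h
    obtain ⟨s, hs⟩ := hSne
    apply (inc4 p hp q hq s hs).1
    rw [← h]
    exact (inc4 p hp p hp s hs).2 rfl
  have oinj : ∀ t ∈ T, ∀ t' ∈ T, O t = O t' → t = t' := by
    intro t h1 t' h2 h
    have h3 : 2 * ht t = 2 * ht t' := congrArg Prod.snd h
    exact tinj t h1 t' h2 (by linarith)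
  have ane : ∀ s ∈ S, ∀ p ∈ P, ∀ t, al s p ≠ O t := by
    intro s hs p hp t h
    have h1 : s * p.1 = 0 := congrArg Prod.fst h
    rcases mul_eq_zero.1 h1 with h2 | h2
    · linarith [(hS s hs).1]
    · exact hG.g3 p hp h2
  have cne : ∀ s ∈ S, ∀ l ∈ L, ∀ q ∈ P0, cp s l ≠ R q := by
    intro s hs l hl q hq h
    obtain ⟨hqP, t, h1, h2⟩ := Finset.mem_filter.1 hq
    have h3 : O t ∈ R q := (inc3 t h1 q hqP).2 h2
    rw [← h] at h3
    exact inc2 t h1 l hl s hs h3
  set PA : Finset (ℝ × ℝ) := (S ×ˢ P).image (fun a => al a.1 a.2) with hPA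
  set PO : Finset (ℝ × ℝ) := T.image O with hPO
  set LA : Finset (Set (ℝ × ℝ)) := (S ×ˢ (L \ T)).image (fun b => cp b.1 b.2) with hLA
  set LR : Finset (Set (ℝ × ℝ)) := P0.image R with hLR
  have memPA : ∀ x, x ∈ PA ↔ ∃ s ∈ S, ∃ p ∈ P, al s p = x := by
    intro x
    rw [hPA, Finset.mem_image]
    constructor
    · rintro ⟨⟨s, p⟩, h1, h2⟩
      rw [Finset.mem_product] at h1
      exact ⟨s, h1.1, p, h1.2, h2⟩
    · rintro ⟨s, hs, p, hp, h⟩
      exact ⟨(s, p), Finset.mem_product.2 ⟨hs, hp⟩, h⟩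
  have memLA : ∀ x, x ∈ LA ↔ ∃ s ∈ S, ∃ l ∈ L, l ∉ T ∧ cp s l = x := by
    intro x
    rw [hLA, Finset.mem_image]
    constructor
    · rintro ⟨⟨s, l⟩, h1, h2⟩
      rw [Finset.mem_product, Finset.mem_sdiff] at h1
      exact ⟨s, h1.1, l, h1.2.1, h1.2.2, h2⟩
    · rintro ⟨s, hs, l, hl, hlT, h⟩
      exact ⟨(s, l), Finset.mem_product.2 ⟨hs, Finset.mem_sdiff.2 ⟨hl, hlT⟩⟩, h⟩
  have memPO : ∀ x, x ∈ PO ↔ ∃ t ∈ T, O t = x := fun x => Finset.mem_image
  have memLR : ∀ x, x ∈ LR ↔ ∃ q ∈ P0, R q = x := fun x => Finset.mem_image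
  have cardPA : PA.card = (k - 1) * P.card := by
    rw [hPA, Finset.card_image_of_injOn, Finset.card_product, hSc]
    rintro ⟨s, p⟩ h1 ⟨s', p'⟩ h2 h
    rw [Finset.mem_coe, Finset.mem_product] at h1 h2
    obtain ⟨e1, e2⟩ := ainj s h1.1 p h1.2 s' h2.1 p' h2.2 h
    rw [e1, e2]
  have cardPO : PO.card = T.card := by
    rw [hPO, Finset.card_image_of_injOn]
    intro t h1 t' h2 h
    exact oinj t h1 t' h2 h
  have disjP : Disjoint PA PO := by
    rw [Finset.disjoint_left]
    intro x h1 h2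
    obtain ⟨s, hs, p, hp, rfl⟩ := (memPA x).1 h1
    obtain ⟨t, -, h3⟩ := Finset.mem_image.1 h2
    exact ane s hs p hp t h3.symm
  have hcfg : Cfg k (PA ∪ PO) (LA ∪ LR) := by
    refine ⟨?_, ?_, ?_⟩
    · intro l hl
      rcases Finset.mem_union.1 hl with h | h
      · obtain ⟨s, hs, m, hm, -, rfl⟩ := (memLA l).1 h
        exact isLine_cp (hS s hs).1 (hS s hs).2 (hc.line m hm)
      · obtain ⟨q, hq, rfl⟩ := Finset.mem_image.1 h
        exact ⟨q.2, q.1, 2 * q.1 * q.2, Or.inr (hG.g3 q (P0P q hq)), rfl⟩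
    · intro x hx
      rcases Finset.mem_union.1 hx with h | h
      · obtain ⟨s, hs, p, hp, rfl⟩ := (memPA x).1 h
        have e : ((LA ∪ LR).filter fun l => al s p ∈ l) =
            (((L \ T).filter fun l => p ∈ l).image (cp s)) ∪ ((P0.filter fun q => q = p).image R) := by
          ext l
          rw [Finset.mem_filter, Finset.mem_union, memLA, memLR, Finset.mem_union,
            Finset.mem_image, Finset.mem_image]
          constructor
          · rintro ⟨⟨s', hs', m, hm, hmT, rfl⟩ | ⟨q, hq, rfl⟩, h2⟩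
            · obtain ⟨rfl, h3⟩ := (inc1 p hp m hm s hs s' hs').1 h2
              exact Or.inl ⟨m, Finset.mem_filter.2 ⟨Finset.mem_sdiff.2 ⟨hm, hmT⟩, h3⟩, rfl⟩
            · have h3 := (inc4 p hp q (P0P q hq) s hs).1 h2
              exact Or.inr ⟨q, Finset.mem_filter.2 ⟨hq, h3.symm⟩, rfl⟩
          · rintro (⟨m, hm, rfl⟩ | ⟨q, hq, rfl⟩)
            · obtain ⟨h3, h4⟩ := Finset.mem_filter.1 hm
              obtain ⟨h5, h6⟩ := Finset.mem_sdiff.1 h3
              exact ⟨Or.inl ⟨s, hs, m, h5, h6, rfl⟩, (inc1 p hp m h5 s hs s hs).2 ⟨rfl, h4⟩⟩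
            · obtain ⟨h3, rfl⟩ := Finset.mem_filter.1 hq
              exact ⟨Or.inr ⟨q, h3, rfl⟩, (inc4 q hp q hp s hs).2 rfl⟩
        have c1 : (((L \ T).filter fun l => p ∈ l).image (cp s)).card =
            ((L \ T).filter fun l => p ∈ l).card := by
          refine Finset.card_image_of_injOn ?_
          intro l _ l' _ h2
          exact cp_inj (hS s hs).1 (hS s hs).2 h2
        have c2 : ((P0.filter fun q => q = p).image R).card = if p ∈ P0 then 1 else 0 := by
          rw [Finset.card_image_of_injOn]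
          · rw [Finset.filter_eq']
            split_ifs <;> simp
          · intro q h1 q' h2 h3
            rw [Finset.mem_coe, Finset.mem_filter] at h1 h2
            rw [h1.2, h2.2]
        have c3 : Disjoint (((L \ T).filter fun l => p ∈ l).image (cp s))
            ((P0.filter fun q => q = p).image R) := by
          rw [Finset.disjoint_left]
          intro x h1 h2
          obtain ⟨l, hl, rfl⟩ := Finset.mem_image.1 h1
          obtain ⟨q, hq, h3⟩ := Finset.mem_image.1 h2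
          exact cne s hs l (Finset.mem_sdiff.1 (Finset.mem_filter.1 hl).1).1 q
            (Finset.mem_filter.1 hq).1 h3.symm
        have c4 : (L.filter fun l => p ∈ l).card =
            ((L \ T).filter fun l => p ∈ l).card + (T.filter fun l => p ∈ l).card := by
          rw [← Finset.card_union_of_disjoint, ← Finset.filter_union,
            Finset.sdiff_union_of_subset hTL]
          exact Finset.disjoint_filter_filter Finset.sdiff_disjoint
        rw [e, Finset.card_union_of_disjoint c3, c1, c2, ← tcard p hp, ← c4, hc.pt p hp]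
      · obtain ⟨t, htT, rfl⟩ := Finset.mem_image.1 h
        have e : ((LA ∪ LR).filter fun l => O t ∈ l) = (P.filter fun q => q ∈ t).image R := by
          ext l
          rw [Finset.mem_filter, Finset.mem_union, memLA, memLR, Finset.mem_image]
          constructor
          · rintro ⟨⟨s', hs', m, hm, hmT, rfl⟩ | ⟨q, hq, rfl⟩, h2⟩
            · exact absurd h2 (inc2 t htT m hm s' hs')
            · exact ⟨q, Finset.mem_filter.2 ⟨P0P q hq, (inc3 t htT q (P0P q hq)).1 h2⟩, rfl⟩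
          · rintro ⟨q, hq, rfl⟩
            obtain ⟨h3, h4⟩ := Finset.mem_filter.1 hq
            exact ⟨Or.inr ⟨q, Finset.mem_filter.2 ⟨h3, t, htT, h4⟩, rfl⟩, (inc3 t htT q h3).2 h4⟩
        rw [e, Finset.card_image_of_injOn, hc.ln t (hTL htT)]
        intro q h1 q' h2 h3
        exact rinj q (Finset.mem_filter.1 h1).1 q' (Finset.mem_filter.1 h2).1 h3
    · intro l hl
      rcases Finset.mem_union.1 hl with h | h
      · obtain ⟨s, hs, m, hm, hmT, rfl⟩ := (memLA l).1 h
        have e : ((PA ∪ PO).filter fun p => p ∈ cp s m) = (P.filter fun q => q ∈ m).image (al s) := by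
          ext x
          rw [Finset.mem_filter, Finset.mem_union, memPA, memPO, Finset.mem_image]
          constructor
          · rintro ⟨⟨s', hs', p, hp, rfl⟩ | ⟨t, htT, rfl⟩, h2⟩
            · obtain ⟨rfl, h3⟩ := (inc1 p hp m hm s' hs' s hs).1 h2
              exact ⟨p, Finset.mem_filter.2 ⟨hp, h3⟩, rfl⟩
            · exact absurd h2 (inc2 t htT m hm s hs)
          · rintro ⟨p, hp, rfl⟩
            obtain ⟨h3, h4⟩ := Finset.mem_filter.1 hp
            exact ⟨Or.inl ⟨s, hs, p, h3, rfl⟩, (inc1 p h3 m hm s hs s hs).2 ⟨rfl, h4⟩⟩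
        rw [e, Finset.card_image_of_injOn, hc.ln m hm]
        intro q _ q' _ h3
        exact al_inj (hS s hs).1 (hS s hs).2 h3
      · obtain ⟨q, hq, rfl⟩ := Finset.mem_image.1 h
        have hqP := P0P q hq
        have e : ((PA ∪ PO).filter fun p => p ∈ R q) =
            (S.image fun s => al s q) ∪ ((T.filter fun t => q ∈ t).image O) := by
          ext x
          rw [Finset.mem_filter, Finset.mem_union, memPA, memPO, Finset.mem_union,
            Finset.mem_image, Finset.mem_image]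
          constructor
          · rintro ⟨⟨s', hs', p, hp, rfl⟩ | ⟨t, htT, rfl⟩, h2⟩
            · have h3 := (inc4 p hp q hqP s' hs').1 h2
              subst h3
              exact Or.inl ⟨s', hs', rfl⟩
            · exact Or.inr ⟨t, Finset.mem_filter.2 ⟨htT, (inc3 t htT q hqP).1 h2⟩, rfl⟩
          · rintro (⟨s', hs', rfl⟩ | ⟨t, ht2, rfl⟩)
            · exact ⟨Or.inl ⟨s', hs', q, hqP, rfl⟩, (inc4 q hqP q hqP s' hs').2 rfl⟩
            · obtain ⟨h3, h4⟩ := Finset.mem_filter.1 ht2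
              exact ⟨Or.inr ⟨t, h3, rfl⟩, (inc3 t h3 q hqP).2 h4⟩
        have c1 : (S.image fun s => al s q).card = k - 1 := by
          rw [Finset.card_image_of_injOn, hSc]
          intro s h1 s' h2 h3
          exact (ainj s h1 q hqP s' h2 q hqP h3).1
        have c2 : ((T.filter fun t => q ∈ t).image O).card = 1 := by
          rw [Finset.card_image_of_injOn, tcard q hqP, if_pos hq]
          intro t h1 t' h2 h3
          exact oinj t (Finset.mem_filter.1 h1).1 t' (Finset.mem_filter.1 h2).1 h3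
        have c3 : Disjoint (S.image fun s => al s q) ((T.filter fun t => q ∈ t).image O) := by
          rw [Finset.disjoint_left]
          intro x h1 h2
          obtain ⟨s, hs, rfl⟩ := Finset.mem_image.1 h1
          obtain ⟨t, -, h3⟩ := Finset.mem_image.1 h2
          exact ane s hs q hqP t h3.symm
        rw [e, Finset.card_union_of_disjoint c3, c1, c2]
        omega
  have hcard : (PA ∪ PO).card = (k - 1) * P.card + T.card := by
    rw [Finset.card_union_of_disjoint disjP, cardPA, cardPO]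
  refine ⟨PA ∪ PO, LA ∪ LR, hcfg, hcard, ?_⟩
  rw [hC k _ _ (by omega) hcfg, hcard]

end Pool.Agent.T6.H18.NK
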