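import Pool.Agent.T6.H18.NK.Defs

/-!
Module FLIP (helper60): counting.
-/

set_option autoImplicit false

namespace Pool.Agent.T6.H18.NK

open Classical

namespace ModFLIP

theorem mod_lem (H u S : ℕ) (hu : u < 2 * H) (hS : S < H) : u % H = S ↔ u = S ∨ u = S + H := by
  by_cases h : u < H
  · rw [Nat.mod_eq_of_lt h]
    omega
  · have h1 : u % H = u - H := by
      rw [Nat.mod_eq_sub_mod (by omega), Nat.mod_eq_of_lt (by omega)]
    rw [h1]
    omega

theorem key (h s : ℕ) (hh : 0 < h) (hs : s % 2 = 1) (x : Fin (2 * h)) (e : Bool) :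
    ∃ y : Fin (2 * h), (Rel h s x y ∧ par y = e) ∧
      ∀ y' : Fin (2 * h), Rel h s x y' → par y' = e → y' = y := by
  have hS : s % (2 * h) < 2 * h := Nat.mod_lt _ (by omega)
  have hS2 : s % (2 * h) % 2 = 1 := by
    rw [Nat.mod_mod_of_dvd s (dvd_mul_right 2 h)]
    exact hs
  have hrel : ∀ y : Fin (2 * h), (x.val + y.val) % (2 * h) = s % (2 * h) ↔
      (x.val + y.val = s % (2 * h) ∨ x.val + y.val = s % (2 * h) + 2 * h) := by
    intro y
    have h1 := x.isLt
    have h2 := y.isLt
    exact mod_lem (2 * h) (x.val + y.val) (s % (2 * h)) (by omega) hS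
  have hpar : ∀ y : Fin (2 * h), (x.val + y.val) % (2 * h) = s % (2 * h) →
      x.val % 2 ≠ y.val % 2 := by
    intro y hy
    rw [hrel] at hy
    omega
  by_cases hx : par x = e
  · refine ⟨x, ⟨Or.inl rfl, hx⟩, fun y' hy' hp' => ?_⟩
    rcases hy' with h1 | h1
    · exact h1.symm
    · exfalso
      have h2 := hpar y' h1
      have h3 : par x = par y' := by rw [hx, hp']
      unfold par at h3
      rw [decide_eq_decide] at h3
      omega
  · have hxlt := x.isLt
    have hy0 : ∃ y0 : ℕ, y0 < 2 * h ∧
        (x.val + y0 = s % (2 * h) ∨ x.val + y0 = s % (2 * h) + 2 * h) := by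
      by_cases hc : x.val ≤ s % (2 * h)
      · exact ⟨s % (2 * h) - x.val, by omega, Or.inl (by omega)⟩
      · exact ⟨s % (2 * h) + 2 * h - x.val, by omega, Or.inr (by omega)⟩
    obtain ⟨y0, hy0, hy1⟩ := hy0
    have hy2 : (x.val + (⟨y0, hy0⟩ : Fin (2 * h)).val) % (2 * h) = s % (2 * h) :=
      (hrel ⟨y0, hy0⟩).2 hy1
    refine ⟨⟨y0, hy0⟩, ⟨Or.inr hy2, ?_⟩, fun y' hy' hp' => ?_⟩
    · have h2 := hpar _ hy2
      by_contra hne
      have h3 : par x = par (⟨y0, hy0⟩ : Fin (2 * h)) := by
        cases hA : par x <;> cases hB : par (⟨y0, hy0⟩ : Fin (2 * h)) <;> cases e <;> simp_all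
      unfold par at h3
      rw [decide_eq_decide] at h3
      omega
    · rcases hy' with h1 | h1
      · exfalso
        exact hx (h1 ▸ hp')
      · have h2 := (hrel y').1 h1
        have h3 := y'.isLt
        apply Fin.ext
        show y'.val = y0
        omega

theorem card_par (h : ℕ) (e : Bool) :
    (Finset.univ.filter fun x : Fin (2 * h) => par x = e).card = h := by
  have h1 : (Finset.univ : Finset (Fin h)).card =
      (Finset.univ.filter fun x : Fin (2 * h) => par x = e).card := by
    refine Finset.card_bij (fun i _ => ⟨2 * i.val + (if e then 1 else 0), ?_⟩) ?_ ?_ ?_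
    · have := i.isLt
      split_ifs <;> omega
    · intro i _
      rw [Finset.mem_filter]
      refine ⟨Finset.mem_univ _, ?_⟩
      unfold par
      cases e
      · simp
      · simp
    · intro i _ j _ hij
      have h2 := congrArg Fin.val hij
      simp only at h2
      apply Fin.ext
      omega
    · intro x hx
      rw [Finset.mem_filter] at hx
      have h2 := hx.2
      have h3 := x.isLt
      refine ⟨⟨x.val / 2, by omega⟩, Finset.mem_univ _, ?_⟩
      apply Fin.ext
      show 2 * (x.val / 2) + (if e then 1 else 0) = x.val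
      unfold par at h2
      cases e
      · have h4 : ¬ x.val % 2 = 1 := by simpa using h2
        simp only [Bool.false_eq_true, if_false]
        omega
      · have h4 : x.val % 2 = 1 := by simpa using h2
        simp only [if_true]
        omega
  rw [← h1, Finset.card_univ, Fintype.card_fin]

end ModFLIP

open ModFLIP in
/-- Module FLIP. -/
theorem flip : StmFLIP := by
  intro h r s T hh hs
  refine ⟨?_, fun a => ?_⟩
  · rw [Finset.card_eq_sum_card_fiberwise (f := fun (a : Fin r → Fin (2 * h)) i => par (a i))
      (t := T) (by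
        intro a ha
        exact (Finset.mem_filter.1 (Finset.mem_coe.1 ha)).2)]
    have h1 : ∀ τ ∈ T, ((Finset.univ.filter fun a : Fin r → Fin (2 * h) =>
        (fun i => par (a i)) ∈ T).filter fun a => (fun i => par (a i)) = τ).card = h ^ r := by
      intro τ hτ
      have h2 : ((Finset.univ.filter fun a : Fin r → Fin (2 * h) =>
          (fun i => par (a i)) ∈ T).filter fun a => (fun i => par (a i)) = τ) =
          Fintype.piFinset fun i => Finset.univ.filter fun x : Fin (2 * h) => par x = τ i := by
        ext a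
        rw [Finset.mem_filter, Finset.mem_filter, Fintype.mem_piFinset]
        simp only [Finset.mem_filter, Finset.mem_univ, true_and]
        constructor
        · rintro ⟨-, h3⟩ i
          exact congrFun h3 i
        · intro h3
          have h4 : (fun i => par (a i)) = τ := funext h3
          exact ⟨h4 ▸ hτ, h4⟩
      rw [h2, Fintype.card_piFinset, Finset.prod_congr rfl fun i _ => card_par h (τ i),
        Finset.prod_const, Finset.card_univ, Fintype.card_fin]
    rw [Finset.sum_congr rfl h1, Finset.sum_const, smul_eq_mul]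
  · choose Y hY1 hY2 using fun (x : Fin (2 * h)) (e : Bool) => key h s hh hs x e
    symm
    refine Finset.card_bij (fun τ _ => fun i => Y (a i) (τ i)) ?_ ?_ ?_
    · intro τ hτ
      rw [Finset.mem_filter]
      have h1 : (fun i => par (Y (a i) (τ i))) = τ := funext fun i => (hY1 (a i) (τ i)).2
      refine ⟨Finset.mem_univ _, ?_, fun i => (hY1 (a i) (τ i)).1⟩
      rw [h1]
      exact hτ
    · intro τ _ τ' _ he
      funext i
      have h1 := (hY1 (a i) (τ i)).2
      have h2 := (hY1 (a i) (τ' i)).2
      have h3 : Y (a i) (τ i) = Y (a i) (τ' i) := congrFun he i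
      rw [← h1, ← h2, h3]
    · intro b hb
      rw [Finset.mem_filter] at hb
      obtain ⟨-, hb1, hb2⟩ := hb
      refine ⟨fun i => par (b i), hb1, ?_⟩
      funext i
      exact (hY2 (a i) (par (b i)) (b i) (hb2 i) rfl).symm

end Pool.Agent.T6.H18.NK
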