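import Pool.Agent.T6.H18.NK.Defs

/-!
# Geometric `(n_k)` configurations: module GEN, a vector outside of finitely many hyperplanes
-/

set_option autoImplicit false

namespace Pool.Agent.T6.H18.NK

open Classical Polynomial

theorem gen : StmGEN := by
  intro r F hF
  -- the polynomial of a coefficient vector
  let P : (Fin r → ℝ) → ℝ[X] := fun c => ∑ i : Fin r, C (c i) * X ^ (i : ℕ)
  have hP : ∀ c ∈ F, P c ≠ 0 := by
    intro c hc h0
    apply hF c hc
    funext j
    have h1 : (P c).coeff (j : ℕ) = c j := by
      simp only [P, finset_sum_coeff, coeff_C_mul, coeff_X_pow]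
      rw [Finset.sum_eq_single j]
      · simp
      · intro b _ hb
        have : (j : ℕ) ≠ (b : ℕ) := fun h => hb (Fin.ext h.symm)
        simp [this]
      · intro h
        exact absurd (Finset.mem_univ j) h
    rw [h0] at h1
    simpa using h1.symm
  obtain ⟨t, ht⟩ := Infinite.exists_notMem_finset (F.biUnion fun c => (P c).roots.toFinset)
  refine ⟨fun i => t ^ (i : ℕ), ?_⟩
  intro c hc h0
  apply ht
  rw [Finset.mem_biUnion]
  refine ⟨c, hc, ?_⟩
  rw [Multiset.mem_toFinset, mem_roots (hP c hc)]
  show eval t (P c) = 0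
  simp only [P, eval_finset_sum, eval_mul, eval_C, eval_pow, eval_X]
  rw [← h0]
  exact Finset.sum_congr rfl fun i _ => mul_comm _ _

end Pool.Agent.T6.H18.NK
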