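import Pool.Agent.T6.H18.NK.Defs

/-!
# PER: the perspectivity construction (MP_377d0a_co)
-/

set_option autoImplicit false

namespace Pool.Agent.T6.H18.NK

open Classical

namespace ModPER

/-- a line meets the parabola in finitely many points -/
theorem finite_par (l : Set (ℝ × ℝ)) (hl : IsLine l) : {t : ℝ | (t, t ^ 2) ∈ l}.Finite := by
  obtain ⟨a, b, c, hab, rfl⟩ := hl
  have hne : (Polynomial.C b * Polynomial.X ^ 2 + Polynomial.C a * Polynomial.X -
      Polynomial.C c : Polynomial ℝ) ≠ 0 := by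
    intro h0
    have h1 := congrArg (fun q => Polynomial.coeff q 1) h0
    have h2 := congrArg (fun q => Polynomial.coeff q 2) h0
    simp [Polynomial.coeff_C] at h1 h2
    rcases hab with h | h
    · exact h h1
    · exact h h2
  refine (Polynomial.finite_setOfPred_isRoot hne).subset ?_
  intro t ht
  simp only [Set.mem_ofPred_eq] at ht ⊢
  simp only [Polynomial.IsRoot.def, Polynomial.eval_sub, Polynomial.eval_add, Polynomial.eval_mul,
    Polynomial.eval_C, Polynomial.eval_X, Polynomial.eval_pow]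
  linarith

theorem isLine_two (p q : ℝ × ℝ) (h : p ≠ q) :
    IsLine {x : ℝ × ℝ | (q.2 - p.2) * x.1 + (p.1 - q.1) * x.2 =
      (q.2 - p.2) * p.1 + (p.1 - q.1) * p.2} := by
  refine ⟨q.2 - p.2, p.1 - q.1, _, ?_, rfl⟩
  by_contra hc
  push Not at hc
  apply h
  apply Prod.ext
  · linarith [hc.2]
  · linarith [hc.1]

/-- translated configurations -/
theorem cfg_translate (k : ℕ) (P : Finset (ℝ × ℝ)) (L : Finset (Set (ℝ × ℝ))) (Q : ℝ × ℝ)
    (h : Cfg k P L) :
    Cfg k (P.image fun p => p - Q) (L.image fun l => (fun x => x + Q) ⁻¹' l) := by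
  have hinjL : Function.Injective (fun l : Set (ℝ × ℝ) => (fun x => x + Q) ⁻¹' l) := by
    intro l l' hll
    ext x
    have := congrArg (fun s => (x - Q) ∈ s) hll
    simpa using this
  have hinjP : Function.Injective (fun p : ℝ × ℝ => p - Q) := sub_left_injective
  refine ⟨?_, ?_, ?_⟩
  · intro l hl
    obtain ⟨m, hm, rfl⟩ := Finset.mem_image.mp hl
    obtain ⟨a, b, c, hab, rfl⟩ := h.line m hm
    refine ⟨a, b, c - a * Q.1 - b * Q.2, hab, ?_⟩
    ext x
    simp only [Set.mem_preimage, Set.mem_ofPred_eq, Prod.fst_add, Prod.snd_add]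
    constructor <;> intro h1 <;> linarith
  · intro p hp
    obtain ⟨q, hq, rfl⟩ := Finset.mem_image.mp hp
    rw [Finset.filter_image, Finset.card_image_of_injective _ hinjL, ← h.pt q hq]
    congr 1
    ext l
    simp
  · intro l hl
    obtain ⟨m, hm, rfl⟩ := Finset.mem_image.mp hl
    rw [Finset.filter_image, Finset.card_image_of_injective _ hinjP, ← h.ln m hm]
    congr 1
    ext l
    simp

theorem exists_centered (k n : ℕ) (h : n ∈ N k) :
    ∃ P L, Cfg k P L ∧ P.card = n ∧ L.card = n ∧ (∀ l ∈ L, (0 : ℝ × ℝ) ∉ l) ∧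
      ∀ p ∈ P, ∀ q ∈ P, p ≠ q → p.2 * q.1 - p.1 * q.2 ≠ 0 := by
  obtain ⟨P, L, hc, hP, hL⟩ := h
  have hfin : ((⋃ l ∈ L, {t : ℝ | (t, t ^ 2) ∈ l}) ∪
      ⋃ p ∈ P, ⋃ q ∈ P.erase p, {t : ℝ | (t, t ^ 2) ∈ {x : ℝ × ℝ |
        (q.2 - p.2) * x.1 + (p.1 - q.1) * x.2 =
          (q.2 - p.2) * p.1 + (p.1 - q.1) * p.2}}).Finite := by
    refine Set.Finite.union ?_ ?_
    · exact Set.Finite.biUnion (Finset.finite_toSet L) fun l hl => finite_par l (hc.line l hl)
    · refine Set.Finite.biUnion (Finset.finite_toSet P) fun p hp => ?_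
      refine Set.Finite.biUnion (Finset.finite_toSet (P.erase p)) fun q hq => ?_
      exact finite_par _ (isLine_two p q (Finset.ne_of_mem_erase hq).symm)
  obtain ⟨t, ht⟩ := hfin.exists_notMem
  simp only [Set.mem_union, Set.mem_iUnion, not_or, not_exists] at ht
  obtain ⟨ht1, ht2⟩ := ht
  have hinjL : Function.Injective (fun l : Set (ℝ × ℝ) =>
      (fun x => x + ((t, t ^ 2) : ℝ × ℝ)) ⁻¹' l) := by
    intro l l' hll
    ext x
    have := congrArg (fun s => (x - (t, t ^ 2)) ∈ s) hll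
    simpa using this
  refine ⟨_, _, cfg_translate k P L (t, t ^ 2) hc, ?_, ?_, ?_, ?_⟩
  · rw [Finset.card_image_of_injective _ sub_left_injective, hP]
  · rw [Finset.card_image_of_injective _ hinjL, hL]
  · intro l hl
    obtain ⟨m, hm, rfl⟩ := Finset.mem_image.mp hl
    intro h0
    apply ht1 m hm
    simpa using h0
  · intro p hp q hq hpq
    obtain ⟨p', hp', rfl⟩ := Finset.mem_image.mp hp
    obtain ⟨q', hq', rfl⟩ := Finset.mem_image.mp hq
    intro h0
    have hne : p' ≠ q' := fun h => hpq (by rw [h])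
    apply ht2 p' hp' q' (Finset.mem_erase.mpr ⟨hne.symm, hq'⟩)
    simp only [Set.mem_ofPred_eq]
    simp only [Prod.fst_sub, Prod.snd_sub] at h0
    linear_combination h0

/-- dilated sets -/
def sc (t : ℝ) (l : Set (ℝ × ℝ)) : Set (ℝ × ℝ) := {x | t⁻¹ • x ∈ l}

theorem isLine_sc (t : ℝ) (ht : 0 < t) (l : Set (ℝ × ℝ)) (hl : IsLine l) : IsLine (sc t l) := by
  obtain ⟨a, b, c, hab, rfl⟩ := hl
  refine ⟨a, b, t * c, hab, ?_⟩
  ext x
  simp only [sc, Set.mem_ofPred_eq, Prod.smul_fst, Prod.smul_snd, smul_eq_mul]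
  constructor
  · intro h
    rw [← h]
    field_simp
  · intro h
    have : a * (t⁻¹ * x.1) + b * (t⁻¹ * x.2) = t⁻¹ * (a * x.1 + b * x.2) := by ring
    rw [this, h]
    field_simp

theorem exists_tau (k : ℕ) (P : Finset (ℝ × ℝ)) (L : Finset (Set (ℝ × ℝ))) (h : Cfg k P L)
    (h0 : ∀ l ∈ L, (0 : ℝ × ℝ) ∉ l) :
    ∃ τ : ℝ, 1 < τ ∧ ∀ p ∈ P, ∀ l ∈ L, ∀ i j : ℕ,
      (τ ^ i • p ∈ sc (τ ^ j) l ↔ i = j ∧ p ∈ l) := by
  have hfin : (⋃ p ∈ P, ⋃ l ∈ L, {x : ℝ | x • p ∈ l}).Finite := by
    refine Set.Finite.biUnion (Finset.finite_toSet P) fun p hp => ?_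
    refine Set.Finite.biUnion (Finset.finite_toSet L) fun l hl => ?_
    refine Set.Subsingleton.finite ?_
    intro x hx y hy
    have h0l := h0 l hl
    obtain ⟨a, b, c, hab, rfl⟩ := h.line l hl
    simp only [Set.mem_ofPred_eq, Prod.smul_fst, Prod.smul_snd, smul_eq_mul, Prod.fst_zero,
      Prod.snd_zero, mul_zero, add_zero] at hx hy h0l
    have hx' : x * (a * p.1 + b * p.2) = c := by linarith
    have hy' : y * (a * p.1 + b * p.2) = c := by linarith
    have hne : a * p.1 + b * p.2 ≠ 0 := by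
      intro h1
      rw [h1, mul_zero] at hx'
      exact h0l hx'
    exact mul_right_cancel₀ hne (hx'.trans hy'.symm)
  obtain ⟨M, hM⟩ := (hfin.union (hfin.image (fun x => x⁻¹))).bddAbove
  refine ⟨max M 1 + 1, by linarith [le_max_right M 1], ?_⟩
  set τ := max M 1 + 1 with hτ
  have hτ1 : 1 < τ := by linarith [le_max_right M 1]
  have hτM : M < τ := by linarith [le_max_left M 1]
  have hτ0 : 0 < τ := by linarith
  intro p hp l hl i j
  constructor
  · intro hm
    have hm' : ((τ ^ j)⁻¹ * τ ^ i) • p ∈ l := by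
      simpa [sc, smul_smul] using hm
    have hmem : ((τ ^ j)⁻¹ * τ ^ i) ∈ ⋃ p ∈ P, ⋃ l ∈ L, {x : ℝ | x • p ∈ l} := by
      simp only [Set.mem_iUnion]
      exact ⟨p, hp, l, hl, hm'⟩
    have hle1 : (τ ^ j)⁻¹ * τ ^ i ≤ M := hM (Or.inl hmem)
    have hle2 : ((τ ^ j)⁻¹ * τ ^ i)⁻¹ ≤ M := hM (Or.inr ⟨_, hmem, rfl⟩)
    have hij : i = j := by
      rcases lt_trichotomy i j with hlt | heq | hgt
      · exfalso
        have h1 : ((τ ^ j)⁻¹ * τ ^ i)⁻¹ = τ ^ (j - i) := by
          rw [mul_inv, inv_inv, pow_sub₀ τ hτ0.ne' hlt.le]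
        rw [h1] at hle2
        have h2 : τ ≤ τ ^ (j - i) := le_self_pow₀ hτ1.le (by omega)
        linarith
      · exact heq
      · exfalso
        have h1 : (τ ^ j)⁻¹ * τ ^ i = τ ^ (i - j) := by
          rw [pow_sub₀ τ hτ0.ne' hgt.le, mul_comm]
        rw [h1] at hle1
        have h2 : τ ≤ τ ^ (i - j) := le_self_pow₀ hτ1.le (by omega)
        linarith
    refine ⟨hij, ?_⟩
    subst hij
    rw [inv_mul_cancel₀ (by positivity), one_smul] at hm'
    exact hm'
  · rintro ⟨rfl, hpl⟩
    show (τ ^ i)⁻¹ • τ ^ i • p ∈ l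
    rw [smul_smul, inv_mul_cancel₀ (by positivity), one_smul]
    exact hpl

/-- the line through `0` and `q` -/
def R (q : ℝ × ℝ) : Set (ℝ × ℝ) := {x | q.2 * x.1 + (-q.1) * x.2 = 0}

end ModPER

open ModPER

theorem per (hC : StmCNT) : StmPER := by
  intro k n hk hn hN
  obtain ⟨P, L, hc, hP, hL, h0, hgen⟩ := exists_centered k n hN
  obtain ⟨τ, hτ1, hτ⟩ := exists_tau k P L hc h0
  have hτ0 : 0 < τ := by linarith
  have hLne : L.Nonempty := by
    rw [← Finset.card_pos]; omega
  obtain ⟨l0, hl0⟩ := hLne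
  -- every point is on a line
  have hon : ∀ p ∈ P, ∃ l ∈ L, p ∈ l := by
    intro p hp
    have h1 := hc.pt p hp
    have h2 : (L.filter fun l => p ∈ l).Nonempty := by
      rw [← Finset.card_pos]; omega
    obtain ⟨l, hl⟩ := h2
    exact ⟨l, (Finset.mem_filter.mp hl).1, (Finset.mem_filter.mp hl).2⟩
  have hpne : ∀ p ∈ P, p ≠ 0 := by
    intro p hp hp0
    obtain ⟨l, hl, hpl⟩ := hon p hp
    exact h0 l hl (hp0 ▸ hpl)
  -- the data
  set A : Finset (ℕ × (ℝ × ℝ)) := Finset.range (k - 1) ×ˢ P with hA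
  set B : Finset (ℕ × Set (ℝ × ℝ)) := Finset.range (k - 1) ×ˢ L.erase l0 with hB
  set P0 : Finset (ℝ × ℝ) := P.filter fun p => p ∈ l0 with hP0
  let f : ℕ × (ℝ × ℝ) → ℝ × ℝ := fun a => τ ^ a.1 • a.2
  let g : ℕ × Set (ℝ × ℝ) → Set (ℝ × ℝ) := fun b => sc (τ ^ b.1) b.2
  have hP0card : P0.card = k := hc.ln l0 hl0
  -- incidences
  have inc1 : ∀ p ∈ P, ∀ l ∈ L, ∀ i j : ℕ, (f (i, p) ∈ g (j, l) ↔ i = j ∧ p ∈ l) := hτ
  have inc2 : ∀ l ∈ L, ∀ j : ℕ, (0 : ℝ × ℝ) ∉ g (j, l) := by
    intro l hl j h1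
    have h2 : (τ ^ j)⁻¹ • (0 : ℝ × ℝ) ∈ l := h1
    rw [smul_zero] at h2
    exact h0 l hl h2
  have inc3 : ∀ q : ℝ × ℝ, (0 : ℝ × ℝ) ∈ R q := by
    intro q; simp [R]
  have inc4 : ∀ p ∈ P, ∀ q ∈ P, ∀ i : ℕ, (f (i, p) ∈ R q ↔ p = q) := by
    intro p hp q hq i
    have hti : τ ^ i ≠ 0 := by positivity
    simp only [f, R, Set.mem_ofPred_eq, Prod.smul_fst, Prod.smul_snd, smul_eq_mul]
    constructor
    · intro h1
      by_contra hne
      have h2 := hgen q hq p hp (Ne.symm hne)
      apply h2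
      have h3 : τ ^ i * (q.2 * p.1 - q.1 * p.2) = 0 := by linear_combination h1
      rcases mul_eq_zero.mp h3 with h4 | h4
      · exact absurd h4 hti
      · exact h4
    · rintro rfl
      ring
  -- injectivity
  have finj : ∀ a ∈ A, ∀ b ∈ A, f a = f b → a = b := by
    rintro ⟨i, p⟩ ha ⟨j, q⟩ hb hab
    have hp : p ∈ P := (Finset.mem_product.mp ha).2
    have hq : q ∈ P := (Finset.mem_product.mp hb).2
    obtain ⟨l, hl, hql⟩ := hon q hq
    have h1 : f (j, q) ∈ g (j, l) := (inc1 q hq l hl j j).mpr ⟨rfl, hql⟩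
    rw [← hab] at h1
    have h2 := (inc1 p hp l hl i j).mp h1
    have hij := h2.1
    subst hij
    have h3 : τ ^ i • p = τ ^ i • q := hab
    have h4 : p = q := by
      have := congrArg (fun x => (τ ^ i)⁻¹ • x) h3
      simpa [smul_smul, inv_mul_cancel₀ (by positivity : τ ^ i ≠ 0)] using this
    rw [h4]
  have fne : ∀ a ∈ A, f a ≠ 0 := by
    rintro ⟨i, p⟩ ha h1
    have hp : p ∈ P := (Finset.mem_product.mp ha).2
    have h2 : τ ^ i • p = 0 := h1
    rcases smul_eq_zero.mp h2 with h3 | h3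
    · exact absurd h3 (by positivity)
    · exact hpne p hp h3
  have lon : ∀ l ∈ L, ∃ p ∈ P, p ∈ l := by
    intro l hl
    have h1 := hc.ln l hl
    have h2 : (P.filter fun p => p ∈ l).Nonempty := by
      rw [← Finset.card_pos]; omega
    obtain ⟨p, hp⟩ := h2
    exact ⟨p, (Finset.mem_filter.mp hp).1, (Finset.mem_filter.mp hp).2⟩
  have ginj : ∀ a ∈ B, ∀ b ∈ B, g a = g b → a = b := by
    rintro ⟨i, l⟩ ha ⟨j, m⟩ hb hab
    have hl : l ∈ L := (Finset.mem_erase.mp (Finset.mem_product.mp ha).2).2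
    have hm : m ∈ L := (Finset.mem_erase.mp (Finset.mem_product.mp hb).2).2
    obtain ⟨p, hp, hpl⟩ := lon l hl
    have h1 : f (i, p) ∈ g (i, l) := (inc1 p hp l hl i i).mpr ⟨rfl, hpl⟩
    rw [hab] at h1
    have h2 := (inc1 p hp m hm i j).mp h1
    have hij := h2.1
    subst hij
    have h4 : l = m := by
      ext x
      have h5 : (τ ^ i • x ∈ sc (τ ^ i) l) = (τ ^ i • x ∈ sc (τ ^ i) m) := by
        have h6 : sc (τ ^ i) l = sc (τ ^ i) m := hab
        rw [h6]
      simp only [sc, Set.mem_ofPred_eq, smul_smul,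
        inv_mul_cancel₀ (by positivity : τ ^ i ≠ 0), one_smul] at h5
      exact h5.to_iff
    rw [h4]
  have Rinj : ∀ p ∈ P0, ∀ q ∈ P0, R p = R q → p = q := by
    intro p hp q hq hpq
    have hp' : p ∈ P := (Finset.mem_filter.mp hp).1
    have hq' : q ∈ P := (Finset.mem_filter.mp hq).1
    apply (inc4 p hp' q hq' 0).mp
    rw [← hpq]
    exact (inc4 p hp' p hp' 0).mpr rfl
  have hdisj : Disjoint (B.image g) (P0.image R) := by
    rw [Finset.disjoint_left]
    intro x hx hx'
    obtain ⟨⟨j, l⟩, hb, rfl⟩ := Finset.mem_image.mp hx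
    obtain ⟨q, hq, hqe⟩ := Finset.mem_image.mp hx'
    have hl : l ∈ L := (Finset.mem_erase.mp (Finset.mem_product.mp hb).2).2
    apply inc2 l hl j
    rw [← hqe]
    exact inc3 q
  have h0A : (0 : ℝ × ℝ) ∉ A.image f := by
    intro h1
    obtain ⟨a, ha, ha0⟩ := Finset.mem_image.mp h1
    exact fne a ha ha0
  -- the configuration
  have hcfg : Cfg k (insert 0 (A.image f)) (B.image g ∪ P0.image R) := by
    refine ⟨?_, ?_, ?_⟩
    · intro l hl
      rcases Finset.mem_union.mp hl with h1 | h1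
      · obtain ⟨⟨j, m⟩, hb, rfl⟩ := Finset.mem_image.mp h1
        have hm : m ∈ L := (Finset.mem_erase.mp (Finset.mem_product.mp hb).2).2
        exact isLine_sc _ (by positivity) _ (hc.line m hm)
      · obtain ⟨q, hq, rfl⟩ := Finset.mem_image.mp h1
        refine ⟨q.2, -q.1, 0, ?_, rfl⟩
        by_contra hcon
        push Not at hcon
        apply hpne q (Finset.mem_filter.mp hq).1
        apply Prod.ext
        · simpa using hcon.2
        · simpa using hcon.1
    · intro x hx
      rw [Finset.card_filter, Finset.sum_union hdisj, Finset.sum_image ginj,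
        Finset.sum_image Rinj]
      rcases Finset.mem_insert.mp hx with rfl | hx
      · rw [Finset.sum_eq_zero, Finset.sum_congr rfl (fun q _ => if_pos (inc3 q))]
        · simp [hP0card]
        · rintro ⟨j, l⟩ hb
          have hl : l ∈ L := (Finset.mem_erase.mp (Finset.mem_product.mp hb).2).2
          exact if_neg (inc2 l hl j)
      · obtain ⟨⟨i, p⟩, ha, rfl⟩ := Finset.mem_image.mp hx
        have hi : i ∈ Finset.range (k - 1) := (Finset.mem_product.mp ha).1
        have hp : p ∈ P := (Finset.mem_product.mp ha).2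
        have e1 : (∑ b ∈ B, if f (i, p) ∈ g b then 1 else 0) =
            ((L.erase l0).filter fun l => p ∈ l).card := by
          rw [hB, Finset.sum_product, Finset.sum_eq_single_of_mem i hi, Finset.card_filter]
          · refine Finset.sum_congr rfl fun l hl => ?_
            have hl' : l ∈ L := (Finset.mem_erase.mp hl).2
            simp [inc1 p hp l hl' i i]
          · intro j _ hj
            refine Finset.sum_eq_zero fun l hl => ?_
            have hl' : l ∈ L := (Finset.mem_erase.mp hl).2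
            rw [if_neg]
            intro h1
            exact hj ((inc1 p hp l hl' i j).mp h1).1.symm
        have e2 : (∑ q ∈ P0, if f (i, p) ∈ R q then 1 else 0) = if p ∈ l0 then 1 else 0 := by
          have e3 : (∑ q ∈ P0, if f (i, p) ∈ R q then 1 else 0) =
              ∑ q ∈ P0, if p = q then 1 else 0 := by
            refine Finset.sum_congr rfl fun q hq => ?_
            have hq' : q ∈ P := (Finset.mem_filter.mp hq).1
            simp only [inc4 p hp q hq' i]
          rw [e3, Finset.sum_ite_eq]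
          simp [hP0, hp]
        rw [e1, e2, Finset.filter_erase]
        have h2 := hc.pt p hp
        by_cases hpl : p ∈ l0
        · rw [if_pos hpl, Finset.card_erase_of_mem, h2]
          · omega
          · simp [hl0, hpl]
        · have h3 : l0 ∉ L.filter fun l => p ∈ l := fun h => hpl (Finset.mem_filter.mp h).2
          rw [if_neg hpl, Finset.erase_eq_of_notMem h3, h2, add_zero]
    · intro x hx
      rw [Finset.card_filter, Finset.sum_insert h0A, Finset.sum_image finj]
      rcases Finset.mem_union.mp hx with hx | hx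
      · obtain ⟨⟨j, l⟩, hb, rfl⟩ := Finset.mem_image.mp hx
        have hl : l ∈ L := (Finset.mem_erase.mp (Finset.mem_product.mp hb).2).2
        have hj : j ∈ Finset.range (k - 1) := (Finset.mem_product.mp hb).1
        rw [if_neg (inc2 l hl j), zero_add, hA, Finset.sum_product,
          Finset.sum_eq_single_of_mem j hj, ← hc.ln l hl, Finset.card_filter]
        · refine Finset.sum_congr rfl fun p hp => ?_
          simp [inc1 p hp l hl j j]
        · intro i _ hi
          refine Finset.sum_eq_zero fun p hp => ?_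
          rw [if_neg]
          intro h1
          exact hi ((inc1 p hp l hl i j).mp h1).1
      · obtain ⟨q, hq, rfl⟩ := Finset.mem_image.mp hx
        have hq' : q ∈ P := (Finset.mem_filter.mp hq).1
        rw [if_pos (inc3 q), hA, Finset.sum_product]
        have e1 : ∀ i ∈ Finset.range (k - 1),
            (∑ p ∈ P, if f (i, p) ∈ R q then 1 else 0) = 1 := by
          intro i _
          have e3 : (∑ p ∈ P, if f (i, p) ∈ R q then 1 else 0) =
              ∑ p ∈ P, if p = q then 1 else 0 := by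
            refine Finset.sum_congr rfl fun p hp => ?_
            simp only [inc4 p hp q hq' i]
          rw [e3, Finset.sum_ite_eq']
          simp [hq']
        rw [Finset.sum_congr rfl e1]
        simp
        omega
  have hcard : (insert 0 (A.image f)).card = (k - 1) * n + 1 := by
    rw [Finset.card_insert_of_notMem h0A, Finset.card_image_of_injOn finj, hA,
      Finset.card_product, Finset.card_range, hP]
  exact ⟨_, _, hcfg, hcard, by rw [hC k _ _ (by omega) hcfg, hcard]⟩

end Pool.Agent.T6.H18.NK
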