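import Pool.Agent.T6.H18.NK.Defs2
import Pool.Agent.T6.H18.NK.PER

/-!
# POS: translation into general position (MP_377d0a_co)
-/

set_option autoImplicit false

namespace Pool.Agent.T6.H18.NK

open Classical

namespace ModPOS

open ModPER (finite_par cfg_translate)

theorem isLine_of (B : Set (ℝ × ℝ)) (a b c : ℝ) (hne : a ≠ 0 ∨ b ≠ 0)
    (h : ∀ w : ℝ × ℝ, w ∈ B ↔ a * w.1 + b * w.2 = c) : IsLine B :=
  ⟨a, b, c, hne, Set.ext h⟩

def B1 (p : ℝ × ℝ) (l : Set (ℝ × ℝ)) (s s' : ℝ) : Set (ℝ × ℝ) :=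
  {w | ((s / s' * (p - -w).1, (2 - s) / (2 - s') * (p - -w).2) : ℝ × ℝ) + -w ∈ l}

def B2 (c : ℝ) (l : Set (ℝ × ℝ)) (s : ℝ) : Set (ℝ × ℝ) :=
  {w | ((0, 2 * (c - (-w).2) / (2 - s)) : ℝ × ℝ) + -w ∈ l}

def B3 (p : ℝ × ℝ) : Set (ℝ × ℝ) := {w | (p - -w).1 = 0}

def B4 (p q : ℝ × ℝ) (s : ℝ) : Set (ℝ × ℝ) :=
  {w | (2 - s) * (p - -w).2 * (q - -w).1 - 2 * (q - -w).2 * (q - -w).1 +
    s * (q - -w).2 * (p - -w).1 = 0}

theorem line1 (p : ℝ × ℝ) (l : Set (ℝ × ℝ)) (hl : IsLine l) (s s' : ℝ) (hs' : 0 < s')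
    (hs2 : s' < 2) (hne : s ≠ s') : IsLine (B1 p l s s') := by
  obtain ⟨A, B, C, hAB, rfl⟩ := hl
  have h1 : s / s' - 1 ≠ 0 := by
    rw [sub_ne_zero, Ne, div_eq_one_iff_eq hs'.ne']
    exact hne
  have h2 : (2 - s) / (2 - s') - 1 ≠ 0 := by
    rw [sub_ne_zero, Ne, div_eq_one_iff_eq (by linarith)]
    intro h
    apply hne
    linarith
  refine isLine_of _ (A * (s / s' - 1)) (B * ((2 - s) / (2 - s') - 1))
    (C - A * (s / s') * p.1 - B * ((2 - s) / (2 - s')) * p.2) ?_ fun w => ?_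
  · rcases hAB with h | h
    · exact Or.inl (mul_ne_zero h h1)
    · exact Or.inr (mul_ne_zero h h2)
  · simp only [B1, Set.mem_ofPred_eq, Prod.fst_add, Prod.snd_add, Prod.fst_neg, Prod.snd_neg,
      Prod.fst_sub, Prod.snd_sub]
    constructor <;> intro h <;> linarith

theorem line2 (c : ℝ) (l : Set (ℝ × ℝ)) (hl : IsLine l) (s : ℝ) (hs : 0 < s) (hs2 : s < 2) :
    IsLine (B2 c l s) := by
  obtain ⟨A, B, C, hAB, rfl⟩ := hl
  have h0 : 2 - s ≠ 0 := by linarith
  have h1 : 2 / (2 - s) - 1 ≠ 0 := by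
    rw [sub_ne_zero, Ne, div_eq_one_iff_eq h0]
    intro h
    linarith
  refine isLine_of _ (-A) (B * (2 / (2 - s) - 1)) (C - B * (2 * c / (2 - s))) ?_ fun w => ?_
  · rcases hAB with h | h
    · exact Or.inl (neg_ne_zero.2 h)
    · exact Or.inr (mul_ne_zero h h1)
  · simp only [B2, Set.mem_ofPred_eq, Prod.fst_add, Prod.snd_add, Prod.fst_neg, Prod.snd_neg]
    have e : 2 * (c - -w.2) / (2 - s) = 2 * c / (2 - s) + 2 / (2 - s) * w.2 := by ring
    rw [e]
    constructor <;> intro h <;> linarith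

theorem line3 (p : ℝ × ℝ) : IsLine (B3 p) := by
  refine isLine_of _ 1 0 (-p.1) (Or.inl one_ne_zero) fun w => ?_
  simp only [B3, Set.mem_ofPred_eq, Prod.fst_neg, Prod.fst_sub]
  constructor <;> intro h <;> linarith

theorem line4 (p q : ℝ × ℝ) (hpq : p ≠ q) (s : ℝ) (hs : 0 < s) (hs2 : s < 2) :
    IsLine (B4 p q s) := by
  refine isLine_of _ ((2 - s) * (p.2 - q.2)) (s * (p.1 - q.1))
    (-((2 - s) * p.2 * q.1 - 2 * q.2 * q.1 + s * q.2 * p.1)) ?_ fun w => ?_
  · by_contra hcon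
    push Not at hcon
    obtain ⟨h1, h2⟩ := hcon
    apply hpq
    apply Prod.ext
    · rcases mul_eq_zero.1 h2 with h | h
      · linarith
      · linarith
    · rcases mul_eq_zero.1 h1 with h | h
      · linarith
      · linarith
  · simp only [B4, Set.mem_ofPred_eq, Prod.fst_neg, Prod.snd_neg, Prod.fst_sub, Prod.snd_sub]
    constructor
    · intro h
      linear_combination h
    · intro h
      linear_combination h

end ModPOS

open ModPOS ModPER in
theorem pos : StmPOS := by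
  intro k P L T S hc hTL hT hS
  choose! hgt hh using hT
  -- the bad parameters
  have hfin : (((⋃ p ∈ P, ⋃ l ∈ L, ⋃ s ∈ S, ⋃ s' ∈ S.erase s,
      {t : ℝ | ((t, t ^ 2) : ℝ × ℝ) ∈ B1 p l s s'}) ∪
      (⋃ m ∈ T, ⋃ l ∈ L, ⋃ s ∈ S, {t : ℝ | ((t, t ^ 2) : ℝ × ℝ) ∈ B2 (hgt m) l s})) ∪
      ((⋃ p ∈ P, {t : ℝ | ((t, t ^ 2) : ℝ × ℝ) ∈ B3 p}) ∪
      (⋃ p ∈ P, ⋃ q ∈ P.erase p, ⋃ s ∈ S,
        {t : ℝ | ((t, t ^ 2) : ℝ × ℝ) ∈ B4 p q s}))).Finite := by
    refine ((Set.Finite.biUnion P.finite_toSet fun p _ => ?_).union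
      (Set.Finite.biUnion T.finite_toSet fun m _ => ?_)).union
      ((Set.Finite.biUnion P.finite_toSet fun p _ => finite_par _ (line3 p)).union
      (Set.Finite.biUnion P.finite_toSet fun p _ => ?_))
    · refine Set.Finite.biUnion L.finite_toSet fun l hl => ?_
      refine Set.Finite.biUnion S.finite_toSet fun s hs => ?_
      refine Set.Finite.biUnion (S.erase s).finite_toSet fun s' hs' => ?_
      have h1 := Finset.mem_erase.1 (Finset.mem_coe.1 hs')
      exact finite_par _ (line1 p l (hc.line l hl) s s' (hS s' h1.2).1 (hS s' h1.2).2 h1.1.symm)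
    · refine Set.Finite.biUnion L.finite_toSet fun l hl => ?_
      refine Set.Finite.biUnion S.finite_toSet fun s hs => ?_
      exact finite_par _ (line2 _ l (hc.line l hl) s (hS s hs).1 (hS s hs).2)
    · refine Set.Finite.biUnion (P.erase p).finite_toSet fun q hq => ?_
      refine Set.Finite.biUnion S.finite_toSet fun s hs => ?_
      have h1 := Finset.mem_erase.1 (Finset.mem_coe.1 hq)
      exact finite_par _ (line4 p q h1.1.symm s (hS s hs).1 (hS s hs).2)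
  obtain ⟨t, ht⟩ := hfin.exists_notMem
  simp only [Set.mem_union, Set.mem_iUnion, not_or, not_exists] at ht
  obtain ⟨⟨ht1, ht2⟩, ht3, ht4⟩ := ht
  set w : ℝ × ℝ := (t, t ^ 2) with hw
  have hinjL : Function.Injective (fun l : Set (ℝ × ℝ) => (fun x => x + -w) ⁻¹' l) := by
    intro l l' hll
    ext x
    have := congrArg (fun s => (x - -w) ∈ s) hll
    simpa using this
  refine ⟨P.image fun p => p - -w, L.image fun l => (fun x => x + -w) ⁻¹' l,
    T.image fun l => (fun x => x + -w) ⁻¹' l, cfg_translate k P L (-w) hc,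
    Finset.image_subset_image hTL, ?_, Finset.card_image_of_injective _ sub_left_injective,
    Finset.card_image_of_injective _ hinjL, ?_⟩
  · intro l hl
    obtain ⟨m, hm, rfl⟩ := Finset.mem_image.1 hl
    refine ⟨hgt m + w.2, ?_⟩
    ext x
    have h1 : (x + -w ∈ m) ↔ (x + -w).2 = hgt m := by
      conv_lhs => rw [hh m hm]
      exact Iff.rfl
    show x + -w ∈ m ↔ x.2 = hgt m + w.2
    rw [h1]
    simp only [Prod.snd_add, Prod.snd_neg]
    constructor <;> intro h <;> linarith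
  · refine ⟨?_, ?_, ?_, ?_⟩
    · intro p' hp' l' hl' s hs s' hs' hne hmem
      obtain ⟨p, hp, rfl⟩ := Finset.mem_image.1 hp'
      obtain ⟨l, hl, rfl⟩ := Finset.mem_image.1 hl'
      exact ht1 p hp l hl s hs s' (Finset.mem_erase.2 ⟨hne.symm, hs'⟩) hmem
    · intro c hcT l' hl' s hs hmem
      obtain ⟨m, hm, hme⟩ := Finset.mem_image.1 hcT
      obtain ⟨l, hl, rfl⟩ := Finset.mem_image.1 hl'
      have h1 : ((0, c) : ℝ × ℝ) ∈ (fun x : ℝ × ℝ => x + -w) ⁻¹' m := by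
        rw [hme]
        exact rfl
      have h2 : ((0, c) : ℝ × ℝ) + -w ∈ m := h1
      rw [hh m hm] at h2
      have h3 : c = hgt m - (-w).2 := by
        have h4 : (((0, c) : ℝ × ℝ) + -w).2 = hgt m := h2
        simp only [Prod.snd_add, Prod.snd_neg] at h4
        rw [Prod.snd_neg]
        linarith
      rw [h3] at hmem
      exact ht2 m hm l hl s hs hmem
    · intro p' hp' h0
      obtain ⟨p, hp, rfl⟩ := Finset.mem_image.1 hp'
      exact ht3 p hp h0
    · intro p' hp' q' hq' hne s hs h0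
      obtain ⟨p, hp, rfl⟩ := Finset.mem_image.1 hp'
      obtain ⟨q, hq, rfl⟩ := Finset.mem_image.1 hq'
      have hpq : q ≠ p := fun h => hne (by rw [h])
      exact ht4 p hp q (Finset.mem_erase.2 ⟨hpq, hq⟩) s hs h0

end Pool.Agent.T6.H18.NK
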