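import Pool.Agent.T6.H18.NK.Defs

/-!
# TRIG: equal heights (MP_377d0a_co)
-/

set_option autoImplicit false

namespace Pool.Agent.T6.H18.NK

theorem trig : StmTRIG := by
  intro h s x y hh hs
  have hh' : (h : ℝ) ≠ 0 := by exact_mod_cast hh.ne'
  have hpi := Real.pi_ne_zero
  unfold ht Rel
  rw [Real.cos_eq_cos_iff]
  constructor
  · rintro ⟨m, hm | hm⟩
    · left
      have h1 : (y.val : ℤ) - x.val = 2 * h * m := by
        have h2 : Real.pi * (2 * (y.val : ℝ) - s) / (2 * (h : ℝ)) -
            Real.pi * (2 * (x.val : ℝ) - s) / (2 * (h : ℝ)) = 2 * m * Real.pi := by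
          rw [hm]; ring
        have h3 : ((y.val : ℝ) - x.val) = (2 * h * m) := by
          field_simp at h2
          linarith [h2]
        exact_mod_cast h3
      have hx := x.isLt
      have hy := y.isLt
      have hm0 : m = 0 := by
        by_contra hne
        rcases lt_or_gt_of_ne hne with h5 | h5
        · have : (2 * h : ℤ) * m ≤ (2 * h : ℤ) * (-1) :=
            mul_le_mul_of_nonneg_left (by omega) (by positivity)
          omega
        · have : (2 * h : ℤ) * 1 ≤ (2 * h : ℤ) * m :=
            mul_le_mul_of_nonneg_left (by omega) (by positivity)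
          omega
      subst hm0
      apply Fin.ext
      omega
    · right
      have h1 : (x.val : ℤ) + y.val - s = 2 * h * m := by
        have h2 : Real.pi * (2 * (y.val : ℝ) - s) / (2 * (h : ℝ)) +
            Real.pi * (2 * (x.val : ℝ) - s) / (2 * (h : ℝ)) = 2 * m * Real.pi := by
          rw [hm]; ring
        have h3 : ((x.val : ℝ) + y.val - s) = (2 * h * m) := by
          field_simp at h2
          linarith [h2]
        exact_mod_cast h3
      have h5 : ((x.val + y.val : ℕ) : ℤ) ≡ (s : ℤ) [ZMOD ((2 * h : ℕ) : ℤ)] := by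
        apply Int.ModEq.symm
        rw [Int.modEq_iff_dvd]
        refine ⟨m, ?_⟩
        push_cast
        linarith
      exact (Int.natCast_modEq_iff.mp h5)
  · rintro (hxy | hxy)
    · refine ⟨0, Or.inl ?_⟩
      rw [hxy]; simp
    · have h5 : ((x.val + y.val : ℕ) : ℤ) ≡ (s : ℤ) [ZMOD ((2 * h : ℕ) : ℤ)] :=
        Int.natCast_modEq_iff.mpr hxy
      obtain ⟨m, hm⟩ := (Int.modEq_iff_dvd.mp h5.symm)
      refine ⟨m, Or.inr ?_⟩
      have h6 : (x.val : ℝ) + y.val - s = 2 * h * m := by
        have : ((x.val : ℤ) + y.val - s : ℤ) = 2 * h * m := by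
          push_cast at hm; linarith
        exact_mod_cast this
      have h7 : 2 * (y.val : ℝ) - s = 4 * h * m - (2 * (x.val : ℝ) - s) := by linarith
      rw [h7]
      field_simp
      ring

end Pool.Agent.T6.H18.NK
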