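import Pool.Agent.T6.H18.NK.Defs

/-!
Module UNI (helper60): disjoint unions of configurations.
-/

set_option autoImplicit false

namespace Pool.Agent.T6.H18.NK

open Classical

namespace ModUNI

theorem quad_finite (A B C : ℝ) (h : A ≠ 0 ∨ B ≠ 0) : {t : ℝ | A * t ^ 2 + B * t + C = 0}.Finite := by
  set p : Polynomial ℝ := Polynomial.C A * Polynomial.X ^ 2 + Polynomial.C B * Polynomial.X +
    Polynomial.C C with hp
  have hp0 : p ≠ 0 := by
    intro h0
    have h2 : p.coeff 2 = A := by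
      rw [hp]
      simp [Polynomial.coeff_X, Polynomial.coeff_C]
    have h1 : p.coeff 1 = B := by
      rw [hp]
      simp [Polynomial.coeff_X, Polynomial.coeff_C, Polynomial.coeff_X_pow]
    rw [h0, Polynomial.coeff_zero] at h1 h2
    rcases h with h | h
    · exact h h2.symm
    · exact h h1.symm
  refine Set.Finite.subset (p.roots.toFinset.finite_toSet) ?_
  intro t ht
  rw [Finset.mem_coe, Multiset.mem_toFinset, Polynomial.mem_roots hp0]
  have ht' : A * t ^ 2 + B * t + C = 0 := ht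
  rw [Polynomial.IsRoot.def, hp]
  simpa using ht'

theorem add_finite (p : ℝ × ℝ) (l : Set (ℝ × ℝ)) (hl : IsLine l) :
    {t : ℝ | p + (t, t ^ 2) ∈ l}.Finite := by
  obtain ⟨a, b, c, hab, rfl⟩ := hl
  refine (quad_finite b a (a * p.1 + b * p.2 - c) hab.symm).subset ?_
  intro t ht
  have ht' : a * (p.1 + t) + b * (p.2 + t ^ 2) = c := ht
  show b * t ^ 2 + a * t + (a * p.1 + b * p.2 - c) = 0
  linarith

theorem sub_finite (p : ℝ × ℝ) (l : Set (ℝ × ℝ)) (hl : IsLine l) :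
    {t : ℝ | p - (t, t ^ 2) ∈ l}.Finite := by
  obtain ⟨a, b, c, hab, rfl⟩ := hl
  refine (quad_finite b a (c - (a * p.1 + b * p.2)) hab.symm).subset ?_
  intro t ht
  have ht' : a * (p.1 - t) + b * (p.2 - t ^ 2) = c := ht
  show b * t ^ 2 + a * t + (c - (a * p.1 + b * p.2)) = 0
  linarith

/-- the translated lines -/
noncomputable def tr (v : ℝ × ℝ) (l : Set (ℝ × ℝ)) : Set (ℝ × ℝ) := (fun p => p + v) '' l

theorem mem_tr (v p : ℝ × ℝ) (l : Set (ℝ × ℝ)) : p ∈ tr v l ↔ p - v ∈ l := by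
  unfold tr
  constructor
  · rintro ⟨q, hq, rfl⟩
    simpa using hq
  · intro h
    exact ⟨p - v, h, by simp⟩

theorem tr_inj (v : ℝ × ℝ) : Function.Injective (tr v) :=
  Set.image_injective.2 (add_left_injective v)

theorem line_tr (v : ℝ × ℝ) (l : Set (ℝ × ℝ)) (hl : IsLine l) : IsLine (tr v l) := by
  obtain ⟨a, b, c, hab, rfl⟩ := hl
  refine ⟨a, b, c + a * v.1 + b * v.2, hab, ?_⟩
  ext p
  rw [mem_tr]
  show a * (p.1 - v.1) + b * (p.2 - v.2) = c ↔ a * p.1 + b * p.2 = c + a * v.1 + b * v.2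
  constructor <;> intro h <;> linarith

theorem cfg_tr {k : ℕ} {P : Finset (ℝ × ℝ)} {L : Finset (Set (ℝ × ℝ))} (h : Cfg k P L)
    (v : ℝ × ℝ) : Cfg k (P.image fun p => p + v) (L.image (tr v)) := by
  refine ⟨?_, ?_, ?_⟩
  · intro l hl
    obtain ⟨l0, hl0, rfl⟩ := Finset.mem_image.1 hl
    exact line_tr v l0 (h.line l0 hl0)
  · intro p hp
    obtain ⟨q, hq, rfl⟩ := Finset.mem_image.1 hp
    have h1 : (L.image (tr v)).filter (fun l => q + v ∈ l) =
        (L.filter fun l => q ∈ l).image (tr v) := by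
      ext l
      rw [Finset.mem_filter, Finset.mem_image, Finset.mem_image]
      constructor
      · rintro ⟨⟨l0, hl0, rfl⟩, hq'⟩
        rw [mem_tr, add_sub_cancel_right] at hq'
        exact ⟨l0, Finset.mem_filter.2 ⟨hl0, hq'⟩, rfl⟩
      · rintro ⟨l0, hl0, rfl⟩
        rw [Finset.mem_filter] at hl0
        refine ⟨⟨l0, hl0.1, rfl⟩, ?_⟩
        rw [mem_tr, add_sub_cancel_right]
        exact hl0.2
    rw [h1, Finset.card_image_of_injective _ (tr_inj v)]
    exact h.pt q hq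
  · intro l hl
    obtain ⟨l0, hl0, rfl⟩ := Finset.mem_image.1 hl
    have h1 : (P.image fun p => p + v).filter (fun p => p ∈ tr v l0) =
        (P.filter fun p => p ∈ l0).image fun p => p + v := by
      ext p
      rw [Finset.mem_filter, Finset.mem_image, Finset.mem_image]
      constructor
      · rintro ⟨⟨q, hq, rfl⟩, hq'⟩
        rw [mem_tr, add_sub_cancel_right] at hq'
        exact ⟨q, Finset.mem_filter.2 ⟨hq, hq'⟩, rfl⟩
      · rintro ⟨q, hq, rfl⟩
        rw [Finset.mem_filter] at hq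
        refine ⟨⟨q, hq.1, rfl⟩, ?_⟩
        rw [mem_tr, add_sub_cancel_right]
        exact hq.2
    rw [h1, Finset.card_image_of_injective _ (add_left_injective v)]
    exact h.ln l0 hl0

theorem union {k : ℕ} (hk : 1 ≤ k) {P₁ P₂ : Finset (ℝ × ℝ)} {L₁ L₂ : Finset (Set (ℝ × ℝ))}
    (h₁ : Cfg k P₁ L₁) (h₂ : Cfg k P₂ L₂) (h21 : ∀ p ∈ P₂, ∀ l ∈ L₁, p ∉ l)
    (h12 : ∀ p ∈ P₁, ∀ l ∈ L₂, p ∉ l) :
    Cfg k (P₁ ∪ P₂) (L₁ ∪ L₂) ∧ (P₁ ∪ P₂).card = P₁.card + P₂.card ∧
      (L₁ ∪ L₂).card = L₁.card + L₂.card := by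
  refine ⟨⟨?_, ?_, ?_⟩, ?_, ?_⟩
  · intro l hl
    rcases Finset.mem_union.1 hl with h | h
    · exact h₁.line l h
    · exact h₂.line l h
  · intro p hp
    rw [Finset.filter_union]
    rcases Finset.mem_union.1 hp with h | h
    · rw [Finset.filter_false_of_mem (s := L₂) (fun l hl => h12 p h l hl), Finset.union_empty]
      exact h₁.pt p h
    · rw [Finset.filter_false_of_mem (s := L₁) (fun l hl => h21 p h l hl), Finset.empty_union]
      exact h₂.pt p h
  · intro l hl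
    rw [Finset.filter_union]
    rcases Finset.mem_union.1 hl with h | h
    · rw [Finset.filter_false_of_mem (s := P₂) (fun p hp => h21 p hp l h), Finset.union_empty]
      exact h₁.ln l h
    · rw [Finset.filter_false_of_mem (s := P₁) (fun p hp => h12 p hp l h), Finset.empty_union]
      exact h₂.ln l h
  · refine Finset.card_union_of_disjoint ?_
    rw [Finset.disjoint_left]
    intro p hp1 hp2
    have h3 := h₁.pt p hp1
    obtain ⟨l, hl⟩ := Finset.card_pos.1 (by omega : 0 < (L₁.filter fun l => p ∈ l).card)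
    rw [Finset.mem_filter] at hl
    exact h21 p hp2 l hl.1 hl.2
  · refine Finset.card_union_of_disjoint ?_
    rw [Finset.disjoint_left]
    intro l hl1 hl2
    have h3 := h₁.ln l hl1
    obtain ⟨p, hp⟩ := Finset.card_pos.1 (by omega : 0 < (P₁.filter fun p => p ∈ l).card)
    rw [Finset.mem_filter] at hp
    exact h12 p hp.1 l hl2 hp.2

end ModUNI

open ModUNI in
/-- Module UNI. -/
theorem uni (_hC : StmCNT) : StmUNI := by
  intro k m n hk hm hn
  obtain ⟨P₁, L₁, h₁, hP₁, hL₁⟩ := hm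
  obtain ⟨P₂, L₂, h₂, hP₂, hL₂⟩ := hn
  have hfin : ((⋃ p ∈ (P₂ : Set (ℝ × ℝ)), ⋃ l ∈ (L₁ : Set (Set (ℝ × ℝ))),
      {t : ℝ | p + (t, t ^ 2) ∈ l}) ∪
      (⋃ p ∈ (P₁ : Set (ℝ × ℝ)), ⋃ l ∈ (L₂ : Set (Set (ℝ × ℝ))),
      {t : ℝ | p - (t, t ^ 2) ∈ l})).Finite := by
    refine Set.Finite.union ?_ ?_
    · refine Set.Finite.biUnion (Finset.finite_toSet _) fun p _ => ?_
      refine Set.Finite.biUnion (Finset.finite_toSet _) fun l hl => ?_
      exact add_finite p l (h₁.line l (Finset.mem_coe.1 hl))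
    · refine Set.Finite.biUnion (Finset.finite_toSet _) fun p _ => ?_
      refine Set.Finite.biUnion (Finset.finite_toSet _) fun l hl => ?_
      exact sub_finite p l (h₂.line l (Finset.mem_coe.1 hl))
  obtain ⟨t, ht⟩ := hfin.infinite_compl.nonempty
  rw [Set.mem_compl_iff, Set.mem_union, not_or] at ht
  obtain ⟨ht1, ht2⟩ := ht
  simp only [Set.mem_iUnion, Finset.mem_coe, not_exists] at ht1 ht2
  have h₂' := cfg_tr h₂ (t, t ^ 2)
  have hu := union hk h₁ h₂' (by
    intro p hp l hl hpl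
    obtain ⟨q, hq, rfl⟩ := Finset.mem_image.1 hp
    exact ht1 q hq l hl hpl) (by
    intro p hp l hl hpl
    obtain ⟨l0, hl0, rfl⟩ := Finset.mem_image.1 hl
    rw [mem_tr] at hpl
    exact ht2 p hp l0 hl0 hpl)
  refine ⟨_, _, hu.1, ?_, ?_⟩
  · rw [hu.2.1, hP₁, Finset.card_image_of_injective _ (add_left_injective _), hP₂]
  · rw [hu.2.2, hL₁, Finset.card_image_of_injective _ (tr_inj _), hL₂]

end Pool.Agent.T6.H18.NK
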