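import Mathlib

/-!
# Geometric `(n_k)` configurations (MP_377d0a_co): definitions and statements of the modules
-/

set_option autoImplicit false

namespace Pool.Agent.T6.H18.NK

open Classical

/-- lines of the plane -/
def IsLine (l : Set (ℝ × ℝ)) : Prop :=
  ∃ a b c : ℝ, (a ≠ 0 ∨ b ≠ 0) ∧ l = {p | a * p.1 + b * p.2 = c}

/-- every point lies on exactly `k` of the lines, every line passes through exactly `k` of the
points -/
structure Cfg (k : ℕ) (P : Finset (ℝ × ℝ)) (L : Finset (Set (ℝ × ℝ))) : Prop where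
  line : ∀ l ∈ L, IsLine l
  pt : ∀ p ∈ P, (L.filter fun l => p ∈ l).card = k
  ln : ∀ l ∈ L, (P.filter fun p => p ∈ l).card = k

/-- the set `N_k` (with `0`) -/
def N (k : ℕ) : Set ℕ := {n | ∃ P L, Cfg k P L ∧ P.card = n ∧ L.card = n}

/-- CNT: as many lines as points -/
def StmCNT : Prop := ∀ (k : ℕ) (P : Finset (ℝ × ℝ)) (L : Finset (Set (ℝ × ℝ))), 1 ≤ k →
  Cfg k P L → L.card = P.card

/-- UNI: disjoint unions -/
def StmUNI : Prop := ∀ k m n : ℕ, 1 ≤ k → m ∈ N k → n ∈ N k → m + n ∈ N k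

/-- PER: the perspectivity construction -/
def StmPER : Prop := ∀ k n : ℕ, 2 ≤ k → 0 < n → n ∈ N k → (k - 1) * n + 1 ∈ N k

/-- parity of a vertex of the regular `2 h`-gon -/
def par {h : ℕ} (x : Fin (2 * h)) : Bool := decide (x.val % 2 = 1)

/-- the chord from `x` to `y` has the direction with the number `s` (or `x = y`) -/
def Rel (h s : ℕ) (x y : Fin (2 * h)) : Prop := x = y ∨ (x.val + y.val) % (2 * h) = s % (2 * h)

/-- FLIP: counting -/
def StmFLIP : Prop := ∀ (h r s : ℕ) (T : Finset (Fin r → Bool)), 0 < h → s % 2 = 1 →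
  (Finset.univ.filter fun a : Fin r → Fin (2 * h) => (fun i => par (a i)) ∈ T).card =
    T.card * h ^ r ∧
  ∀ a : Fin r → Fin (2 * h), (Finset.univ.filter fun b : Fin r → Fin (2 * h) =>
    (fun i => par (b i)) ∈ T ∧ ∀ i, Rel h s (a i) (b i)).card = T.card

/-- the height of the vertex `x` of the regular `2 h`-gon over the direction with the number `s` -/
noncomputable def ht (h s : ℕ) (x : Fin (2 * h)) : ℝ :=
  Real.cos (Real.pi * (2 * (x.val : ℝ) - s) / (2 * (h : ℝ)))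

/-- TRIG: equal heights -/
def StmTRIG : Prop := ∀ (h s : ℕ) (x y : Fin (2 * h)), 0 < h → s % 2 = 1 →
  (ht h s x = ht h s y ↔ Rel h s x y)

/-- GEN: a vector outside of finitely many hyperplanes -/
def StmGEN : Prop := ∀ (r : ℕ) (F : Finset (Fin r → ℝ)), (∀ c ∈ F, c ≠ 0) →
  ∃ lam : Fin r → ℝ, ∀ c ∈ F, ∑ i, lam i * c i ≠ 0

/-- BASE: Minkowski sums of regular polygons -/
def StmBASE : Prop := ∀ k h : ℕ, 2 ≤ k → k ≤ h → k * h ^ Nat.clog 2 k ∈ N k

/-- SEM: the numerical semigroup -/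
def StmSEM : Prop := ∀ k n : ℕ, 2 ≤ k → k ^ (2 * Nat.clog 2 k + 2) ≤ n →
  ∃ x y z : ℕ, n = x * (k * k ^ Nat.clog 2 k) + y * (k * (k + 1) ^ Nat.clog 2 k) +
    z * ((k - 1) * (k * k ^ Nat.clog 2 k) + 1)

/-- MAIN -/
def StmMAIN : Prop := ∀ k n : ℕ, 2 ≤ k → k ^ (2 * Nat.clog 2 k + 2) ≤ n → n ∈ N k

end Pool.Agent.T6.H18.NK
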