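import Pool.Agent.T6.H18.NK.Defs

/-!
# Geometric `(n_k)` configurations (MP_377d0a_co), second part: the affine switch
-/

set_option autoImplicit false

namespace Pool.Agent.T6.H18.NK

open Classical

/-- horizontal lines -/
def Hor (T : Finset (Set (ℝ × ℝ))) : Prop := ∀ l ∈ T, ∃ c : ℝ, l = {p | p.2 = c}

/-- general position with respect to the maps `(x, y) ↦ (s x, (2 - s) y)`, `s ∈ S` -/
structure Gen (S : Finset ℝ) (P : Finset (ℝ × ℝ)) (L T : Finset (Set (ℝ × ℝ))) : Prop where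
  g1 : ∀ p ∈ P, ∀ l ∈ L, ∀ s ∈ S, ∀ s' ∈ S, s ≠ s' →
    ((s / s' * p.1, (2 - s) / (2 - s') * p.2) : ℝ × ℝ) ∉ l
  g2 : ∀ c : ℝ, {p : ℝ × ℝ | p.2 = c} ∈ T → ∀ l ∈ L, ∀ s ∈ S, ((0, 2 * c / (2 - s)) : ℝ × ℝ) ∉ l
  g3 : ∀ p ∈ P, p.1 ≠ 0
  g4 : ∀ p ∈ P, ∀ q ∈ P, p ≠ q → ∀ s ∈ S,
    (2 - s) * p.2 * q.1 - 2 * q.2 * q.1 + s * q.2 * p.1 ≠ 0

/-- BASP: Minkowski sums of regular polygons, with a parallel class of lines -/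
def StmBASP : Prop := ∀ k h : ℕ, 2 ≤ k → k ≤ h →
  ∃ (P : Finset (ℝ × ℝ)) (L T : Finset (Set (ℝ × ℝ))), Cfg k P L ∧
    P.card = k * h ^ Nat.clog 2 k ∧ T ⊆ L ∧ T.card = h ^ Nat.clog 2 k ∧ Hor T

/-- POS: translation into general position -/
def StmPOS : Prop := ∀ (k : ℕ) (P : Finset (ℝ × ℝ)) (L T : Finset (Set (ℝ × ℝ))) (S : Finset ℝ),
  Cfg k P L → T ⊆ L → Hor T → (∀ s ∈ S, 0 < s ∧ s < 2) →
  ∃ (P' : Finset (ℝ × ℝ)) (L' T' : Finset (Set (ℝ × ℝ))), Cfg k P' L' ∧ T' ⊆ L' ∧ Hor T' ∧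
    P'.card = P.card ∧ T'.card = T.card ∧ Gen S P' L' T'

/-- COR: the affine switch -/
def StmCOR : Prop := ∀ (k : ℕ) (P : Finset (ℝ × ℝ)) (L T : Finset (Set (ℝ × ℝ))) (S : Finset ℝ),
  2 ≤ k → Cfg k P L → T ⊆ L → Hor T → S.card = k - 1 → (∀ s ∈ S, 0 < s ∧ s < 2) →
  Gen S P L T → (k - 1) * P.card + T.card ∈ N k

/-- SEMB: the numerical semigroup -/
def StmSEMB : Prop := ∀ k n : ℕ, 2 ≤ k → (k - 1) * k ^ (Nat.clog 2 k + 2) ≤ n →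
  ∃ x y J : ℕ, n = y * (k * k ^ Nat.clog 2 k) + (x * ((k - 1) * (k * k ^ Nat.clog 2 k)) + J) ∧
    x ≤ J ∧ J ≤ x * k ^ Nat.clog 2 k

/-- MAINB -/
def StmMAINB : Prop := ∀ k n : ℕ, 2 ≤ k → (k - 1) * k ^ (Nat.clog 2 k + 2) ≤ n → n ∈ N k

end Pool.Agent.T6.H18.NK
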