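import Pool.Agent.T6.H18.NK.Defs

/-!
# Project NK: assembly
-/

set_option autoImplicit false

namespace Pool.Agent.T6.H18.NK

theorem zero_mem (k : ℕ) : 0 ∈ N k :=
  ⟨∅, ∅, ⟨by simp, by simp, by simp⟩, by simp, by simp⟩

theorem mul_mem (hU : StmUNI) {k n : ℕ} (hk : 1 ≤ k) (hn : n ∈ N k) (x : ℕ) : x * n ∈ N k := by
  induction x with
  | zero => rw [zero_mul]; exact zero_mem k
  | succ x ih =>
    rw [Nat.add_mul, one_mul]
    exact hU k _ _ hk ih hn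

theorem main (hU : StmUNI) (hP : StmPER) (hB : StmBASE) (hS : StmSEM) : StmMAIN := by
  intro k n hk hn
  obtain ⟨x, y, z, rfl⟩ := hS k n hk hn
  have h1 : k * k ^ Nat.clog 2 k ∈ N k := hB k k hk (le_refl k)
  have h2 : k * (k + 1) ^ Nat.clog 2 k ∈ N k := hB k (k + 1) hk (Nat.le_succ k)
  have h3 : (k - 1) * (k * k ^ Nat.clog 2 k) + 1 ∈ N k := hP k _ hk (by positivity) h1
  have hk1 : 1 ≤ k := by omega
  exact hU k _ _ hk1 (hU k _ _ hk1 (mul_mem hU hk1 h1 x) (mul_mem hU hk1 h2 y))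
    (mul_mem hU hk1 h3 z)

end Pool.Agent.T6.H18.NK
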