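import Pool.Agent.T6.H18.NK.Defs2

/-!
# Project NK, second part: assembly
-/

set_option autoImplicit false

namespace Pool.Agent.T6.H18.NK

open Classical

theorem zero_memB (k : ℕ) : 0 ∈ N k :=
  ⟨∅, ∅, ⟨by simp, by simp, by simp⟩, by simp, by simp⟩

theorem mul_memB (hU : StmUNI) {k n : ℕ} (hk : 1 ≤ k) (hn : n ∈ N k) (x : ℕ) : x * n ∈ N k := by
  induction x with
  | zero => rw [zero_mul]; exact zero_memB k
  | succ x ih =>
    rw [Nat.add_mul, one_mul]
    exact hU k _ _ hk ih hn

/-- the affine switch for the Minkowski sums -/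
theorem switch (hB : StmBASP) (hP : StmPOS) (hC : StmCOR) {k h j : ℕ} (hk : 2 ≤ k) (hh : k ≤ h)
    (hj : j ≤ h ^ Nat.clog 2 k) : (k - 1) * (k * h ^ Nat.clog 2 k) + j ∈ N k := by
  obtain ⟨P, L, T, h1, h2, h3, h4, h5⟩ := hB k h hk hh
  obtain ⟨T', hT', hT'c⟩ := Finset.exists_subset_card_eq (s := T) (n := j) (by rw [h4]; exact hj)
  obtain ⟨S, hS, hSc⟩ := (Set.Ioo_infinite (show (0 : ℝ) < 2 by norm_num)).exists_subset_card_eq
    (k - 1)
  have hS' : ∀ s ∈ S, 0 < s ∧ s < 2 := fun s hs => hS hs
  obtain ⟨P₁, L₁, T₁, a1, a2, a3, a4, a5, a6⟩ := hP k P L T' S h1 (hT'.trans h3)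
    (fun l hl => h5 l (hT' hl)) hS'
  have := hC k P₁ L₁ T₁ S hk a1 a2 a3 hSc hS' a6
  rwa [a4, a5, h2, hT'c] at this

theorem sums (hU : StmUNI) {k A M : ℕ} (hk : 2 ≤ k) (hA : ∀ j ≤ M, A + j ∈ N k) (x : ℕ) :
    ∀ J, x ≤ J → J ≤ x * M → x * A + J ∈ N k := by
  induction x with
  | zero =>
    intro J _ hJ
    have : J = 0 := by omega
    subst this
    simpa using zero_memB k
  | succ x ih =>
    intro J h1 h2
    have h3 : J - min M (J - x) ≤ x * M := by
      rcases le_total M (J - x) with h | h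
      · rw [min_eq_left h]
        have : (x + 1) * M = x * M + M := by ring
        omega
      · rw [min_eq_right h]
        rcases Nat.eq_zero_or_pos M with hM | hM
        · subst hM
          omega
        · have : x * 1 ≤ x * M := Nat.mul_le_mul (le_refl _) hM
          omega
    have h4 : x ≤ J - min M (J - x) := by
      have := min_le_right M (J - x)
      omega
    have h5 := ih (J - min M (J - x)) h4 h3
    have h6 := hA (min M (J - x)) (min_le_left _ _)
    have h7 := hU k _ _ (by omega) h5 h6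
    have e : x * A + (J - min M (J - x)) + (A + min M (J - x)) = (x + 1) * A + J := by
      have : min M (J - x) ≤ J := (min_le_right _ _).trans (Nat.sub_le _ _)
      have e2 : (x + 1) * A = x * A + A := by ring
      omega
    rwa [e] at h7

theorem mainB (hU : StmUNI) (hB : StmBASP) (hP : StmPOS) (hC : StmCOR) (hS : StmSEMB)
    (hBase : StmBASE) : StmMAINB := by
  intro k n hk hn
  obtain ⟨x, y, J, rfl, h1, h2⟩ := hS k n hk hn
  have hk1 : 1 ≤ k := by omega
  refine hU k _ _ hk1 (mul_memB hU hk1 (hBase k k hk (le_refl k)) y) ?_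
  exact sums hU hk (fun j hj => switch hB hP hC hk (le_refl k) hj) x J h1 h2

theorem semB : StmSEMB := by
  intro k n hk hn
  set M := k ^ Nat.clog 2 k with hM
  have hM1 : 1 ≤ M := Nat.one_le_pow _ _ (by omega)
  set D := k * M with hD
  have hD0 : 0 < D := by positivity
  have e : (k - 1) * k ^ (Nat.clog 2 k + 2) = (k * (k - 1)) * D := by
    rw [hD, hM, pow_add]
    ring
  rw [e] at hn
  have hdiv : D * (n / D) + n % D = n := Nat.div_add_mod n D
  have hQ : k * (k - 1) ≤ n / D := (Nat.le_div_iff_mul_le hD0).2 hn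
  have hlt : n % D < D := Nat.mod_lt _ hD0
  -- the number of the switched summands
  set x := (n % D + M - 1) / M with hx
  have hx1 : n % D ≤ x * M := by
    have := Nat.div_add_mod (n % D + M - 1) M
    have h2 := Nat.mod_lt (n % D + M - 1) hM1
    rw [← hx] at this
    have h3 : M * x = x * M := Nat.mul_comm _ _
    omega
  have hx2 : x ≤ n % D := by
    rw [hx]
    rcases Nat.eq_zero_or_pos (n % D) with h | h
    · rw [h]
      simp only [zero_add]
      rw [Nat.div_eq_of_lt (by omega)]
    · rw [Nat.div_le_iff_le_mul_add_pred hM1]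
      have : n % D * 1 ≤ n % D * M := Nat.mul_le_mul (le_refl _) hM1
      have h3 : M * (n % D) = n % D * M := Nat.mul_comm _ _
      omega
  have hx3 : x ≤ k := by
    rw [hx, Nat.div_le_iff_le_mul_add_pred hM1]
    have : M * k = D := by rw [hD]; ring
    omega
  have hx4 : x * (k - 1) ≤ n / D := (Nat.mul_le_mul hx3 (le_refl _)).trans hQ
  refine ⟨x, n / D - x * (k - 1), n % D, ?_, hx2, hx1⟩
  have e2 : (n / D - x * (k - 1)) * D + x * ((k - 1) * D) = n / D * D := by
    obtain ⟨q, hq⟩ := Nat.exists_eq_add_of_le hx4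
    rw [hq, Nat.add_sub_cancel_left]
    ring
  have e3 : n / D * D = D * (n / D) := Nat.mul_comm _ _
  omega

end Pool.Agent.T6.H18.NK
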