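import Pool.Agent.T6.H18.NK.Defs

/-!
# Project NK, module SEM: the numerical semigroup
-/

set_option autoImplicit false

namespace Pool.Agent.T6.H18.NK

namespace ModSEM

theorem pow_bound {k r : ℕ} (hk : 1 ≤ k) (hr : r ≤ k) : (k + 1) ^ r ≤ 3 * k ^ r := by
  have hk0 : (0 : ℝ) < k := by exact_mod_cast hk
  have h1 : ((k : ℝ) + 1) ^ r ≤ 3 * (k : ℝ) ^ r := by
    have e1 : (k : ℝ) + 1 ≤ k * Real.exp (1 / k) := by
      have := Real.add_one_le_exp (1 / (k : ℝ))
      calc (k : ℝ) + 1 = k * (1 / k + 1) := by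
            field_simp
            ring
        _ ≤ k * Real.exp (1 / k) := mul_le_mul_of_nonneg_left this hk0.le
    calc ((k : ℝ) + 1) ^ r ≤ (k * Real.exp (1 / k)) ^ r :=
          pow_le_pow_left₀ (by positivity) e1 r
      _ = (k : ℝ) ^ r * Real.exp (r * (1 / k)) := by rw [mul_pow, ← Real.exp_nat_mul]
      _ ≤ (k : ℝ) ^ r * 3 := by
          refine mul_le_mul_of_nonneg_left ?_ (by positivity)
          have h2 : (r : ℝ) * (1 / k) ≤ 1 := by
            rw [mul_one_div, div_le_one hk0]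
            exact_mod_cast hr
          have h3 := Real.exp_le_exp.2 h2
          have h4 := Real.exp_one_lt_d9
          linarith
      _ = 3 * (k : ℝ) ^ r := by ring
  exact_mod_cast h1

theorem frob {A B m : ℕ} (hA : 1 < A) (hB : 1 < B) (hc : Nat.Coprime A B)
    (hm : (A - 1) * (B - 1) ≤ m) : ∃ x y : ℕ, m = x * A + y * B := by
  have h := frobeniusNumber_pair hc hA hB
  by_contra hcon
  have h2 : m ∈ {k | k ∉ AddSubmonoid.closure ({A, B} : Set ℕ)} := by
    intro hmem
    rw [AddSubmonoid.mem_closure_pair] at hmem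
    obtain ⟨x, y, hxy⟩ := hmem
    exact hcon ⟨x, y, by simpa [smul_eq_mul] using hxy.symm⟩
  have h3 := h.2 h2
  obtain ⟨a, rfl⟩ : ∃ a, A = a + 2 := ⟨A - 2, by omega⟩
  obtain ⟨b, rfl⟩ : ∃ b, B = b + 2 := ⟨B - 2, by omega⟩
  have e1 : (a + 2 - 1) * (b + 2 - 1) = a * b + a + b + 1 := by
    show (a + 1) * (b + 1) = _
    ring
  have e2 : (a + 2) * (b + 2) - (a + 2) - (b + 2) = a * b + a + b := by
    have : (a + 2) * (b + 2) = a * b + 2 * a + 2 * b + 4 := by ring
    omega
  rw [e1] at hm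
  rw [e2] at h3
  omega

theorem numbers {k : ℕ} (hk : 2 ≤ k) :
    k * ((k ^ Nat.clog 2 k - 1) * ((k + 1) ^ Nat.clog 2 k - 1)) +
      (k - 1) * ((k - 1) * (k * k ^ Nat.clog 2 k) + 1) ≤ k ^ (2 * Nat.clog 2 k + 2) := by
  rcases Nat.lt_or_ge k 4 with h4 | h4
  · interval_cases k
    · have : Nat.clog 2 2 = 1 := by decide
      rw [this]
      norm_num
    · have : Nat.clog 2 3 = 2 := by decide
      rw [this]
      norm_num
  · set r := Nat.clog 2 k with hr
    have h1 : k ≤ 2 ^ r := Nat.le_pow_clog (by norm_num) k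
    have h2 : 2 ≤ r := by
      by_contra h
      push Not at h
      have : 2 ^ r ≤ 2 ^ 1 := Nat.pow_le_pow_right (by norm_num) (by omega)
      omega
    have h3 : r ≤ k := Nat.clog_le_of_le_pow Nat.lt_two_pow_self.le
    have h5 := pow_bound (show 1 ≤ k by omega) h3
    set A := k ^ r with hA
    have hA1 : k ^ 2 ≤ A := Nat.pow_le_pow_right (by omega) h2
    have hApos : 0 < A := by positivity
    have e1 : k ^ (2 * r + 2) = k ^ 2 * (A * A) := by
      rw [hA]
      ring
    have e2 : (A - 1) * ((k + 1) ^ r - 1) ≤ A * (3 * A) :=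
      Nat.mul_le_mul (Nat.sub_le _ _) ((Nat.sub_le _ _).trans h5)
    have e3 : (k - 1) * ((k - 1) * (k * A) + 1) ≤ k * (k * (k * A)) := by
      obtain ⟨j, rfl⟩ : ∃ j, k = j + 1 := ⟨k - 1, by omega⟩
      show j * (j * ((j + 1) * A) + 1) ≤ _
      have : j * ((j + 1) * A) + 1 ≤ (j + 1) * ((j + 1) * A) := by
        have : 1 ≤ (j + 1) * A := Nat.mul_pos (by omega) hApos
        nlinarith
      exact Nat.mul_le_mul (by omega) this
    rw [e1]
    have e4 : k * (A * (3 * A)) + k * (k * (k * A)) ≤ k ^ 2 * (A * A) := by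
      have e5 : k * (k * (k * A)) ≤ k * (A * A) := by
        have : k * (k * A) ≤ A * A := by
          calc k * (k * A) = k ^ 2 * A := by ring
            _ ≤ A * A := Nat.mul_le_mul hA1 (le_refl _)
        exact Nat.mul_le_mul (le_refl _) this
      calc k * (A * (3 * A)) + k * (k * (k * A)) ≤ k * (A * (3 * A)) + k * (A * A) :=
            Nat.add_le_add (le_refl _) e5
        _ = 4 * (k * (A * A)) := by ring
        _ ≤ k * (k * (A * A)) := Nat.mul_le_mul h4 (le_refl _)
        _ = k ^ 2 * (A * A) := by ring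
    have e6 : k * ((A - 1) * ((k + 1) ^ r - 1)) ≤ k * (A * (3 * A)) :=
      Nat.mul_le_mul (le_refl _) e2
    omega

end ModSEM

open ModSEM in
theorem sem : StmSEM := by
  intro k n hk hn
  have hnum := numbers hk
  set r := Nat.clog 2 k with hr
  have h1 : k ≤ 2 ^ r := Nat.le_pow_clog (by norm_num) k
  have hr1 : r ≠ 0 := by
    intro h
    rw [h] at h1
    norm_num at h1
    omega
  have hA : 1 < k ^ r := Nat.one_lt_pow hr1 (by omega)
  have hB : 1 < (k + 1) ^ r := Nat.one_lt_pow hr1 (by omega)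
  have hc : Nat.Coprime (k ^ r) ((k + 1) ^ r) := by
    refine Nat.Coprime.pow _ _ ?_
    simp
  set c := (k - 1) * (k * k ^ r) + 1 with hcdef
  have hz : n % k < k := Nat.mod_lt _ (by omega)
  have hzc : (n % k) * c ≤ (k - 1) * c := Nat.mul_le_mul (by omega) (le_refl _)
  have hle : (n % k) * c ≤ n := by
    have : (k - 1) * c ≤ k ^ (2 * r + 2) := le_trans (Nat.le_add_left _ _) hnum
    omega
  have hmod : k ∣ n - (n % k) * c := by
    rw [← Nat.modEq_iff_dvd' hle]
    have h2 : c ≡ 1 [MOD k] := by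
      have : (k - 1) * (k * k ^ r) ≡ 0 [MOD k] := by
        rw [Nat.modEq_zero_iff_dvd]
        exact Dvd.dvd.mul_left (Dvd.intro _ rfl) _
      simpa [hcdef] using this.add_right 1
    have h3 : (n % k) * c ≡ (n % k) * 1 [MOD k] := h2.mul_left _
    rw [mul_one] at h3
    exact h3.trans (Nat.mod_modEq n k)
  obtain ⟨m, hm⟩ := hmod
  have hmge : (k ^ r - 1) * ((k + 1) ^ r - 1) ≤ m := by
    have h2 : k * ((k ^ r - 1) * ((k + 1) ^ r - 1)) ≤ k * m := by omega
    exact Nat.le_of_mul_le_mul_left h2 (by omega)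
  obtain ⟨x, y, hxy⟩ := frob hA hB hc hmge
  refine ⟨x, y, n % k, ?_⟩
  have h4 : n = k * m + (n % k) * c := by omega
  rw [hxy] at h4
  calc n = k * (x * k ^ r + y * (k + 1) ^ r) + n % k * c := h4
    _ = _ := by ring

end Pool.Agent.T6.H18.NK
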